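import Pool.Agent.TH871.L1.Const

/-!
Short vectors of the lattices given by one congruence, in the `l¹` norm.
-/

set_option autoImplicit false

namespace Pool.Agent.U168.KP

open Pool.Agent.TH871.L1 in
theorem short_vectors : ∃ κ : ℝ, 0 < κ ∧ (6.84 : ℝ) ^ 2 * κ * Real.exp 1 < 32 ∧
    ∀ ε : ℝ, 0 < ε → ∃ (n0 : ℕ) (B : ℝ), ∀ (ι : Type) [Fintype ι] (N : ℕ) (W : ι → ℤ),
      n0 ≤ Fintype.card ι → 0 < N → B * Fintype.card ι ≤ Real.log N →
      ∃ e : ι → ℤ, e ≠ 0 ∧ (N : ℤ) ∣ ∑ i, W i * e i ∧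
        ∑ i, |(e i : ℝ)| ≤ (κ + ε) * Fintype.card ι * Real.exp (Real.log N / Fintype.card ι) := by
  obtain ⟨st, hst⟩ := G5.data.exists_state
  have hb := G5.bound
  rw [← hst] at hb
  have hκ : 0 < st.κ := by
    rw [hst, G5.val_P]
    positivity
  refine ⟨st.κ, hκ, ?_, fun ε hε => lattice st hε⟩
  have h : (6.84 : ℝ) = 171 / 25 := by norm_num
  rw [h]
  exact hb

end Pool.Agent.U168.KP
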