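import Pool.Agent.U168.KP.Set

/-!
The set of the first `n` primes of degree one, one above each rational prime.
-/

set_option autoImplicit false

namespace Pool.Agent.U168.KP

open NumberField IsDedekindDomain Finset Filter Topology Pool.Agent.W231.V

lemma log_div_tendsto : Tendsto (fun N : ℕ => Real.log N / N) atTop (𝓝 0) := by
  have h := (Real.isLittleO_log_id_atTop).tendsto_div_nhds_zero
  have := h.comp (tendsto_natCast_atTop_atTop (R := ℝ))
  exact this.congr fun X => by simp

lemma log_small (c : ℝ) {ε : ℝ} (hε : 0 < ε) (A : ℝ) :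
    ∀ᶠ n : ℕ in atTop, c + A * Real.log n ≤ ε * n := by
  have h1 : Tendsto (fun n : ℕ => c * (1 / (n : ℝ)) + A * (Real.log n / n)) atTop
      (𝓝 (c * 0 + A * 0)) :=
    ((tendsto_one_div_atTop_nhds_zero_nat (𝕜 := ℝ)).const_mul c).add (log_div_tendsto.const_mul A)
  rw [mul_zero, mul_zero, add_zero] at h1
  filter_upwards [h1.eventually (gt_mem_nhds hε), eventually_gt_atTop 0] with n hn hn0
  have hn0' : (0 : ℝ) < n := by exact_mod_cast hn0
  have h2 : c * (1 / (n : ℝ)) + A * (Real.log n / n) = (c + A * Real.log n) / n := by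
    field_simp
  rw [h2, div_lt_iff₀ hn0'] at hn
  exact hn.le

lemma sum_log_le (n : ℕ) : ∑ i ∈ range n, Real.log (i : ℝ) ≤ Real.log (n.factorial : ℝ) := by
  induction n with
  | zero => simp
  | succ n ih =>
    rw [Finset.sum_range_succ, Nat.factorial_succ]
    push_cast
    rw [Real.log_mul (by positivity) (by positivity)]
    have h1 : Real.log (n : ℝ) ≤ Real.log ((n : ℝ) + 1) := by
      rcases Nat.eq_zero_or_pos n with rfl | hn
      · simp
      · exact Real.log_le_log (by exact_mod_cast hn) (by linarith)
    linarith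

variable {K : Type} [Field K] [NumberField K]

lemma good_infinite (T : Finset (HeightOneSpectrum (𝓞 K))) : (Set.ofPred (Good K T)).Infinite := by
  classical
  intro hf
  set c : ℝ := (hf.toFinset.card : ℝ) with hc
  set D : ℝ := (Module.finrank ℚ K : ℝ) with hD
  have h1 := count_asym (K := K) T (δ := 1 / 2) (by norm_num)
  have h2 := log_small 0 (ε := 1 / 4) (by norm_num) (D * c)
  obtain ⟨N, hN1, hN2, hN3⟩ := (h1.and (h2.and (eventually_gt_atTop 0))).exists
  have hN0 : (0 : ℝ) < N := by exact_mod_cast hN3
  have h3 : (Nat.count (Good K T) (N + 1) : ℝ) ≤ c := by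
    rw [hc]
    exact_mod_cast Nat.count_le_card hf (N + 1)
  have hlog : 0 ≤ Real.log N := Real.log_natCast_nonneg N
  have hD0 : 0 ≤ D := Nat.cast_nonneg _
  have h4 : D * Real.log N * (Nat.count (Good K T) (N + 1) : ℝ) ≤ D * Real.log N * c :=
    mul_le_mul_of_nonneg_left h3 (mul_nonneg hD0 hlog)
  rw [← hD] at hN1
  nlinarith

/-- the first `n` good primes -/
theorem good_set (T : Finset (HeightOneSpectrum (𝓞 K))) {δ : ℝ} (hδ : 0 < δ) :
    ∀ᶠ n : ℕ in atTop, ∃ v : Fin n → HeightOneSpectrum (𝓞 K), (∀ i, v i ∉ T) ∧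
      (∀ i, (Ideal.absNorm (v i).asIdeal).Prime) ∧
      Function.Injective (fun i => Ideal.absNorm (v i).asIdeal) ∧
      (∀ i, (Ideal.absNorm (v i).asIdeal : ℝ) ≤
        (1 + δ) * (Module.finrank ℚ K : ℝ) * (n * Real.log n)) ∧
      ∑ i, ell (v i) ≤ n * (Real.log n + Real.log (Real.log n) +
        Real.log (Module.finrank ℚ K : ℝ) - 1 + δ) := by
  classical
  set D : ℝ := (Module.finrank ℚ K : ℝ) with hD
  have hD1 : 1 ≤ D := by
    rw [hD]; exact_mod_cast (Module.finrank_pos : 0 < Module.finrank ℚ K)
  have hinf := good_infinite (K := K) T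
  set δ' : ℝ := δ / 2 with hδ'
  have hδ'0 : 0 < δ' := by positivity
  obtain ⟨j1, hj1⟩ := eventually_atTop.1 (nth_asym (K := K) T hδ'0)
  set j0 := max j1 3 with hj0
  set f : ℕ → ℕ := Nat.nth (Good K T) with hf
  have hgood : ∀ j, Good K T (f j) := fun j => Nat.nth_mem_of_infinite hinf j
  have hmono : StrictMono f := Nat.nth_strictMono hinf
  choose g hg1 hg2 using fun j => (hgood j).2
  set C0 : ℝ := ∑ j ∈ range j0, Real.log (f j) with hC0
  have hlog := log_small (C0 + 1) (ε := δ / 2) (by positivity) 1
  filter_upwards [hlog, eventually_ge_atTop j0, eventually_ge_atTop 3] with n k1 k2 k3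
  have hn3 : (3 : ℝ) ≤ n := by exact_mod_cast k3
  have hn0 : (0 : ℝ) < n := by linarith
  have he3 : Real.exp 1 < 3 := by have := Real.exp_one_lt_d9; linarith
  have hlog3 : ∀ i : ℕ, 3 ≤ i → 1 < Real.log i := by
    intro i hi
    have hi3 : (3 : ℝ) ≤ i := by exact_mod_cast hi
    rw [Real.lt_log_iff_exp_lt (by linarith)]
    linarith
  have hfn : ∀ i : ℕ, (0 : ℝ) < f i := fun i => by exact_mod_cast (hgood i).1.pos
  refine ⟨fun i => g i, fun i => hg1 i, fun i => by rw [hg2]; exact (hgood i).1, ?_, ?_, ?_⟩
  · intro i i' h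
    simp only [hg2] at h
    exact Fin.ext (hmono.injective h)
  · intro i
    rw [hg2]
    have h1 : (f i : ℝ) ≤ f n := by exact_mod_cast (hmono.monotone i.2.le)
    refine h1.trans ((hj1 n ((le_max_left _ _).trans k2)).trans ?_)
    have h2 : 0 ≤ (n : ℝ) * Real.log n := by
      have := hlog3 n k3
      positivity
    have h3 : (1 + δ') * D ≤ (1 + δ) * D := by
      refine mul_le_mul_of_nonneg_right ?_ (by linarith)
      linarith
    exact mul_le_mul_of_nonneg_right h3 h2
  · have e1 : ∑ i : Fin n, ell (g i) = ∑ j ∈ range n, Real.log (f j) := by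
      rw [Finset.sum_range]
      refine Finset.sum_congr rfl fun i _ => ?_
      unfold ell
      rw [hg2]
    rw [e1]
    set A : ℝ := Real.log (1 + δ') + Real.log D + Real.log (Real.log n) with hA
    have hl1 : 0 ≤ Real.log (1 + δ') := Real.log_nonneg (by linarith)
    have hl2 : 0 ≤ Real.log D := Real.log_nonneg hD1
    have hl3 : 0 ≤ Real.log (Real.log n) := Real.log_nonneg (hlog3 n k3).le
    have hA0 : 0 ≤ A := by positivity
    have hterm : ∀ j ∈ range n, Real.log (f j) ≤
        (if j < j0 then Real.log (f j) else 0) + (A + Real.log j) := by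
      intro j hj
      rw [mem_range] at hj
      have hlj : 0 ≤ Real.log (j : ℝ) := Real.log_natCast_nonneg j
      split_ifs with h
      · linarith
      · rw [not_lt] at h
        have hj3 : 3 ≤ j := (le_max_right _ _).trans h
        have h1 := hj1 j ((le_max_left _ _).trans h)
        have hj0' : (0 : ℝ) < j := by
          have : 0 < j := by omega
          exact_mod_cast this
        have hlj1 := hlog3 j hj3
        have h2 := Real.log_le_log (hfn j) h1
        rw [Real.log_mul (by positivity) (by positivity), Real.log_mul (by positivity) (by positivity),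
          Real.log_mul (by positivity) (by positivity)] at h2
        have h3 : Real.log (Real.log j) ≤ Real.log (Real.log n) := by
          refine Real.log_le_log (by linarith) ?_
          exact Real.log_le_log hj0' (by exact_mod_cast hj.le)
        linarith
    have h4 := Finset.sum_le_sum hterm
    rw [Finset.sum_add_distrib, Finset.sum_add_distrib, Finset.sum_const, card_range,
      nsmul_eq_mul] at h4
    have h5 : ∑ j ∈ range n, (if j < j0 then Real.log (f j) else 0) = C0 := by
      rw [← Finset.sum_filter, hC0]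
      refine Finset.sum_congr ?_ fun _ _ => rfl
      ext j
      simp only [mem_filter, mem_range]
      omega
    have h6 := sum_log_le n
    have h7 := log_fac n (by omega)
    have h8 : Real.log (1 + δ') ≤ δ' := by
      have := Real.log_le_sub_one_of_pos (show 0 < 1 + δ' by linarith)
      linarith
    have h9 : n * Real.log (1 + δ') ≤ n * δ' := mul_le_mul_of_nonneg_left h8 hn0.le
    rw [h5] at h4
    have h10 : n * A = n * Real.log (1 + δ') + n * Real.log D + n * Real.log (Real.log n) := by
      rw [hA]; ring
    rw [h10] at h4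
    have h11 : (n : ℝ) * (Real.log n + Real.log (Real.log n) + Real.log D - 1 + δ) =
        n * Real.log n + n * Real.log (Real.log n) + n * Real.log D - n + n * δ' + δ / 2 * n := by
      rw [hδ']; ring
    rw [h11]
    linarith

end Pool.Agent.U168.KP
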