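import Pool.Agent.U168.KP.Mono
import Pool.Agent.U168.KP.Set2
import Pool.Agent.U168.KP.Lam

/-!
Good pairs of integers of a number field whose quotient generates the field.
-/

set_option autoImplicit false

namespace Pool.Agent.U168.KP

open NumberField IsDedekindDomain Height Finset Filter Topology Pool.Agent.W231.V

lemma exists_delta {κ : ℝ} (hκ : (6.84 : ℝ) ^ 2 * κ * Real.exp 1 < 32) :
    ∃ δ : ℝ, 0 < δ ∧ (κ + δ) * Real.exp (1 + 2 * δ) * (1 + δ) / 2 ≤ 16 / 6.84 ^ 2 := by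
  have hc : Continuous fun δ : ℝ => (κ + δ) * Real.exp (1 + 2 * δ) * (1 + δ) / 2 := by fun_prop
  have h0 : (κ + 0) * Real.exp (1 + 2 * 0) * (1 + 0) / 2 < 16 / 6.84 ^ 2 := by
    simp only [mul_zero, add_zero, mul_one]
    rw [lt_div_iff₀ (by norm_num)]
    linarith
  have h1 := (hc.tendsto 0).eventually (gt_mem_nhds h0)
  obtain ⟨r, hr, hr2⟩ := Metric.eventually_nhds_iff.1 h1
  refine ⟨r / 2, by positivity, (hr2 ?_).le⟩
  rw [Real.dist_0_eq_abs, abs_of_pos (by positivity)]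
  linarith

/-- combine two congruences -/
lemma crt {n : ℕ} (N M : ℕ) (hNM : Nat.Coprime N M) (W : Fin n → ℤ) :
    ∃ W' : Fin n → ℤ, ∀ e : Fin n → ℤ, ((N * M : ℕ) : ℤ) ∣ ∑ i, W' i * e i →
      (N : ℤ) ∣ ∑ i, W i * e i ∧ (M : ℤ) ∣ ∑ i, e i := by
  obtain ⟨u, v, huv⟩ := Nat.isCoprime_iff_coprime.2 hNM
  refine ⟨fun i => W i + u * N * (1 - W i), fun e he => ?_⟩
  have e1 : ∑ i, (W i + u * N * (1 - W i)) * e i = ∑ i, W i * e i + N * ∑ i, u * (1 - W i) * e i := by
    rw [Finset.mul_sum, ← Finset.sum_add_distrib]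
    exact Finset.sum_congr rfl fun i _ => by ring
  have e2 : ∑ i, (W i + u * N * (1 - W i)) * e i = ∑ i, e i - M * ∑ i, v * (1 - W i) * e i := by
    rw [Finset.mul_sum, ← Finset.sum_sub_distrib]
    refine Finset.sum_congr rfl fun i _ => ?_
    linear_combination (1 - W i) * e i * huv
  push_cast at he
  constructor
  · have h1 : (N : ℤ) ∣ ∑ i, (W i + u * N * (1 - W i)) * e i := (dvd_mul_right _ _).trans he
    rw [e1] at h1
    exact (dvd_add_left (dvd_mul_right _ _)).1 h1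
  · have h1 : (M : ℤ) ∣ ∑ i, (W i + u * N * (1 - W i)) * e i := (dvd_mul_left _ _).trans he
    rw [e2] at h1
    exact (dvd_sub_left (dvd_mul_right _ _)).1 h1

lemma sum_toNat {n : ℕ} (e : Fin n → ℤ) (h0 : ∑ i, e i = 0) :
    ∑ i, (e i).toNat = ∑ i, (-(e i)).toNat ∧
      ((∑ i, (e i).toNat : ℕ) : ℝ) = (∑ i, |(e i : ℝ)|) / 2 := by
  have h1 : ∀ i, e i = ((e i).toNat : ℤ) - ((-(e i)).toNat : ℤ) := fun i =>
    (Int.toNat_sub_toNat_neg (e i)).symm
  have h2 : (∑ i, ((e i).toNat : ℤ)) - ∑ i, ((-(e i)).toNat : ℤ) = 0 := by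
    rw [← Finset.sum_sub_distrib, ← h0]
    exact Finset.sum_congr rfl fun i _ => (h1 i).symm
  have h3 : ∑ i, (e i).toNat = ∑ i, (-(e i)).toNat := by
    have : ((∑ i, (e i).toNat : ℕ) : ℤ) = ((∑ i, (-(e i)).toNat : ℕ) : ℤ) := by
      push_cast
      linarith
    exact_mod_cast this
  refine ⟨h3, ?_⟩
  have h4 : ∀ i, |(e i : ℝ)| = ((e i).toNat : ℝ) + ((-(e i)).toNat : ℝ) := by
    intro i
    have h5 : |e i| = ((e i).toNat : ℤ) + ((-(e i)).toNat : ℤ) := by
      rcases le_total 0 (e i) with h | h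
      · rw [abs_of_nonneg h]; omega
      · rw [abs_of_nonpos h]; omega
    have h6 : ((|e i| : ℤ) : ℝ) = |(e i : ℝ)| := Int.cast_abs
    rw [← h6, h5]
    push_cast
    rfl
  have h5 : ∑ i, |(e i : ℝ)| = ((∑ i, (e i).toNat : ℕ) : ℝ) + ((∑ i, (-(e i)).toNat : ℕ) : ℝ) := by
    push_cast
    rw [← Finset.sum_add_distrib]
    exact Finset.sum_congr rfl fun i _ => h4 i
  rw [h5, ← h3]
  ring

theorem core (K : Type) [Field K] [NumberField K] (T0 : Finset (HeightOneSpectrum (𝓞 K))) :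
    ∃ (T2 : Finset (HeightOneSpectrum (𝓞 K))) (qq : HeightOneSpectrum (𝓞 K)), T0 ⊆ T2 ∧
      ∀ᶠ n : ℕ in atTop, ∃ (S : Finset (HeightOneSpectrum (𝓞 K))) (k : ℕ) (a b : K),
        Pair T2 S qq k a b ∧
        logHeight ![a, b] ≤ 16 / 6.84 ^ 2 * (Module.finrank ℚ K : ℝ) * (n * Real.log n) ^ 2 ∧
        ∑ v ∈ S, ell v + 2 * n ≤ k * ell qq ∧
        IntermediateField.adjoin ℚ {a / b} = ⊤ := by
  classical
  set D : ℝ := (Module.finrank ℚ K : ℝ) with hD
  have hD1 : 1 ≤ D := by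
    rw [hD]; exact_mod_cast (Module.finrank_pos : 0 < Module.finrank ℚ K)
  obtain ⟨T2, C, π, -, -, hT, hC, hπ0, hπ1, hπ2, -, hπ3⟩ := exists_gens K (T0 ∪ (ram_finite K).toFinset)
  have hram : ∀ v ∉ T2, ∀ q : ℕ, q.Prime → (q : 𝓞 K) ∉ v.asIdeal ^ 2 := by
    intro v hv q hq hmem
    apply hv
    apply hT
    rw [Finset.mem_union, Set.Finite.mem_toFinset]
    exact Or.inr ⟨q, hq, hmem⟩
  -- the prime `𝔮`
  obtain ⟨l, hlgood, hl2⟩ := (good_infinite (K := K) T2).exists_gt 2
  obtain ⟨hl, qq, hqT2, hqn⟩ : Good K T2 l := hlgood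
  have hl2' : l ≠ 2 := by omega
  have hlram : (l : 𝓞 K) ∉ qq.asIdeal ^ 2 := hram qq hqT2 l hl
  obtain ⟨r, hrl, hr⟩ := Nat.exists_infinite_primes (l + 1)
  -- the excluded primes
  have hN3 : (∏ v' ∈ T2, (Ideal.absNorm v'.asIdeal : 𝓞 K)) ≠ 0 := by
    refine Finset.prod_ne_zero_iff.2 fun v' _ => ?_
    have := one_lt_norm v'
    intro h
    have h2 : Ideal.absNorm v'.asIdeal = 0 := by exact_mod_cast h
    rw [h2] at this
    norm_num at this
  have hfin3 : {v : HeightOneSpectrum (𝓞 K) | v.asIdeal ∣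
      Ideal.span {∏ v' ∈ T2, (Ideal.absNorm v'.asIdeal : 𝓞 K)}}.Finite :=
    Ideal.finite_factors (by simpa using hN3)
  set T3 : Finset (HeightOneSpectrum (𝓞 K)) := T2 ∪ {qq} ∪ hfin3.toFinset with hT3
  -- the parameters
  obtain ⟨κ, hκ0, hκ, hlat⟩ := short_vectors
  obtain ⟨δ, hδ0, hδ⟩ := exists_delta hκ
  obtain ⟨n0, B, hlat⟩ := hlat δ hδ0
  refine ⟨T2, qq, Finset.subset_union_left.trans hT, ?_⟩
  obtain ⟨b5, hb5⟩ := exists_nat_gt ((κ + δ) * Real.exp (1 + 2 * δ) * D)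
  obtain ⟨b6, hb6⟩ := exists_nat_ge (Real.log l)
  have hlogt : Tendsto (fun j : ℕ => Real.log j) atTop atTop :=
    Real.tendsto_log_atTop.comp tendsto_natCast_atTop_atTop
  have E1 := good_set (K := K) T3 hδ0
  have E2 := log_small (Real.log l + Real.log r) hδ0 4
  have E3 := loglog_le hδ0 (Real.log (C * ((1 + δ) * D)))
  filter_upwards [E1, E2, E3, hlogt.eventually_ge_atTop B, hlogt.eventually_gt_atTop 1,
    eventually_ge_atTop n0, eventually_ge_atTop b5, eventually_ge_atTop b6, eventually_ge_atTop 3]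
    with n k1 k2 k3 k4 k5 k6 k7 k8 k9
  obtain ⟨v, hv3, hvp, hvinj, hvy, hvsum⟩ := k1
  have hn3 : (3 : ℝ) ≤ n := by exact_mod_cast k9
  have hn0 : (0 : ℝ) < n := by linarith
  set L : ℝ := Real.log n with hL
  have hL0 : 0 < L := by linarith
  have hLL : 0 ≤ Real.log L := Real.log_nonneg k5.le
  have hlD : 0 ≤ Real.log D := Real.log_nonneg hD1
  have hLn : L ≤ n := by
    have := Real.log_le_sub_one_of_pos hn0
    linarith
  have hvT2 : ∀ i, v i ∉ T2 := fun i h => hv3 i (by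
    rw [hT3, Finset.mem_union, Finset.mem_union]; exact Or.inl (Or.inl h))
  have hvqq : ∀ i, v i ≠ qq := fun i h => hv3 i (by
    rw [hT3, Finset.mem_union, Finset.mem_union]; exact Or.inl (Or.inr (by simpa using h)))
  have hinj : Function.Injective v := fun i j h => hvinj (by simp only [h])
  -- the primes of `T2` lie above other rational primes
  have hT2v : ∀ i, ∀ v' ∈ T2, ((Ideal.absNorm (v i).asIdeal : ℕ) : 𝓞 K) ∉ v'.asIdeal := by
    intro i v' hv' hmem
    apply hv3 i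
    rw [hT3, Finset.mem_union, Set.Finite.mem_toFinset]
    right
    have hdvd : Ideal.absNorm (v i).asIdeal ∣ Ideal.absNorm v'.asIdeal := by
      by_contra hcon
      have hcop : IsCoprime (Ideal.absNorm (v i).asIdeal : ℤ) (Ideal.absNorm v'.asIdeal : ℤ) :=
        Nat.isCoprime_iff_coprime.2 ((Nat.Prime.coprime_iff_not_dvd (hvp i)).2 hcon)
      obtain ⟨x, y, hxy⟩ := hcop
      have h3 : ((x : 𝓞 K) * ((Ideal.absNorm (v i).asIdeal : ℕ) : 𝓞 K) +
          (y : 𝓞 K) * ((Ideal.absNorm v'.asIdeal : ℕ) : 𝓞 K)) = 1 := by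
        have h0 := congrArg (Int.cast : ℤ → 𝓞 K) hxy
        push_cast at h0
        exact h0
      have h2 : (1 : 𝓞 K) ∈ v'.asIdeal := by
        rw [← h3]
        exact v'.asIdeal.add_mem (v'.asIdeal.mul_mem_left _ hmem)
          (v'.asIdeal.mul_mem_left _ (Ideal.absNorm_mem _))
      exact v'.isPrime.ne_top ((Ideal.eq_top_iff_one _).2 h2)
    show (v i).asIdeal ∣ _
    rw [Ideal.dvd_span_singleton]
    have h4 : ((Ideal.absNorm (v i).asIdeal : ℕ) : 𝓞 K) ∣
        ∏ v' ∈ T2, (Ideal.absNorm v'.asIdeal : 𝓞 K) := by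
      refine Dvd.dvd.trans ?_ (Finset.dvd_prod_of_mem _ hv')
      exact_mod_cast (Nat.cast_dvd_cast (α := 𝓞 K) hdvd)
    obtain ⟨c, hc⟩ := h4
    rw [hc]
    exact Ideal.mul_mem_right _ _ (Ideal.absNorm_mem _)
  -- the exponent
  set U : ℝ := n * (L + Real.log L + Real.log D - 1 + δ) + 2 * n with hU
  have hll0 : 0 < Real.log l := Real.log_pos (by exact_mod_cast hl.one_lt)
  have hell : ell qq = Real.log l := by
    unfold ell
    rw [hqn]
  have hU1 : n * L + n ≤ U := by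
    have : U = n * L + n + n * (Real.log L + Real.log D + δ) := by rw [hU]; ring
    rw [this]
    have : 0 ≤ n * (Real.log L + Real.log D + δ) := by positivity
    linarith
  have hU0 : 0 < U := by
    have : 0 < n * L := by positivity
    linarith
  set k : ℕ := ⌈U / Real.log l⌉₊ with hk
  have hkU : U ≤ k * Real.log l := by
    have := Nat.le_ceil (U / Real.log l)
    rwa [div_le_iff₀ hll0] at this
  have hkU2 : k * Real.log l ≤ U + Real.log l := by
    have := (Nat.ceil_lt_add_one (show 0 ≤ U / Real.log l by positivity)).le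
    calc (k : ℝ) * Real.log l ≤ (U / Real.log l + 1) * Real.log l :=
          mul_le_mul_of_nonneg_right this hll0.le
      _ = U + Real.log l := by field_simp
  have hk0 : 0 < k := Nat.ceil_pos.2 (by positivity)
  -- the modulus
  set N : ℕ := (l ^ k).totient with hN
  have hNpos : 0 < N := Nat.totient_pos.2 (pow_pos hl.pos k)
  have hNle : N ≤ l ^ k := Nat.totient_le _
  have hNge : l ^ (k - 1) ≤ N := by
    rw [hN, Nat.totient_prime_pow hl hk0]
    exact Nat.le_mul_of_pos_right _ (by omega)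
  set j : ℕ := (Nat.log r (n ^ 4)).succ with hj
  set M : ℕ := r ^ j with hM
  have hr1 : 1 < r := hr.one_lt
  have hMn : n ^ 4 < M := Nat.lt_pow_succ_log_self hr1 _
  have hMn2 : M ≤ r * n ^ 4 := by
    rw [hM, hj, pow_succ, mul_comm]
    exact Nat.mul_le_mul_left _ (Nat.pow_log_le_self r (pow_ne_zero _ (by omega)))
  have hcop : Nat.Coprime N M := by
    rw [hM]
    refine Nat.Coprime.pow_right _ ?_
    rw [hN, Nat.totient_prime_pow hl hk0]
    refine Nat.Coprime.mul_left ?_ ?_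
    · refine Nat.Coprime.pow_left _ ?_
      rw [Nat.coprime_primes hl hr]
      omega
    · refine (Nat.Prime.coprime_iff_not_dvd hr).2 (fun h => ?_) |>.symm
      have := Nat.le_of_dvd (by omega) h
      omega
  -- logarithms
  have hlogN : Real.log ((N * M : ℕ) : ℝ) = Real.log N + Real.log M := by
    push_cast
    have h1 : (N : ℝ) ≠ 0 := by exact_mod_cast hNpos.ne'
    have h2 : (M : ℝ) ≠ 0 := by
      have : 0 < M := by omega
      exact_mod_cast this.ne'
    exact Real.log_mul h1 h2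
  have hlogN1 : Real.log N ≤ k * Real.log l := by
    have h1 : (N : ℝ) ≤ (l : ℝ) ^ k := by exact_mod_cast hNle
    have h2 := Real.log_le_log (by exact_mod_cast hNpos) h1
    rwa [Real.log_pow] at h2
  have hlogN2 : ((k : ℝ) - 1) * Real.log l ≤ Real.log N := by
    have h1 : (l : ℝ) ^ (k - 1) ≤ (N : ℝ) := by exact_mod_cast hNge
    have hlpos : (0 : ℝ) < l := by exact_mod_cast hl.pos
    have h2 := Real.log_le_log (pow_pos hlpos _) h1
    rw [Real.log_pow, Nat.cast_sub hk0] at h2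
    push_cast at h2
    exact h2
  have hlogM1 : Real.log M ≤ Real.log r + 4 * L := by
    have h1 : (M : ℝ) ≤ (r : ℝ) * (n : ℝ) ^ 4 := by exact_mod_cast hMn2
    have hrpos : (0 : ℝ) < r := by exact_mod_cast hr.pos
    have hMpos : (0 : ℝ) < M := by
      have : 0 < M := by omega
      exact_mod_cast this
    have h2 := Real.log_le_log hMpos h1
    rw [Real.log_mul hrpos.ne' (by positivity), Real.log_pow] at h2
    push_cast at h2
    exact h2
  have hlogM0 : 0 ≤ Real.log M := Real.log_natCast_nonneg M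
  have hn6 : Real.log l ≤ n := hb6.trans (by exact_mod_cast k8)
  have hlogNM : B * (Fintype.card (Fin n) : ℝ) ≤ Real.log ((N * M : ℕ) : ℝ) := by
    rw [Fintype.card_fin, hlogN]
    have h1 : B * n ≤ L * n := mul_le_mul_of_nonneg_right k4 hn0.le
    have h2 : ((k : ℝ) - 1) * Real.log l = k * Real.log l - Real.log l := by ring
    rw [h2] at hlogN2
    linarith
  have hexp : Real.exp (Real.log ((N * M : ℕ) : ℝ) / n) ≤ D * (n * L) * Real.exp (1 + 2 * δ) := by
    have h1 : Real.log ((N * M : ℕ) : ℝ) / n ≤ Real.log D + (L + Real.log L) + (1 + 2 * δ) := by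
      rw [div_le_iff₀ hn0, hlogN]
      have h2 : Real.log N + Real.log M ≤ U + (Real.log l + (Real.log r + 4 * L)) := by linarith
      have h3 : (Real.log D + (L + Real.log L) + (1 + 2 * δ)) * n = U + δ * n := by
        rw [hU]; ring
      rw [h3]
      linarith
    refine (Real.exp_le_exp.2 h1).trans (le_of_eq ?_)
    rw [Real.exp_add, Real.exp_add, Real.exp_add, Real.exp_log (by linarith), Real.exp_log hn0,
      Real.exp_log hL0]
  -- the short vector
  obtain ⟨W, hW⟩ := dlog qq hl hqn hlram hl2' k (fun i => π (v i)) (fun i h => by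
    have h1 := hπ2 (v i) (hvT2 i) qq hqT2 (hvqq i).symm
    have h2 := fv_le_of_mem qq (hπ0 (v i)) (k := 1) (by simpa using h)
    rw [h1, pow_one] at h2
    have h3 := one_lt_norm qq
    have h4 : ((Ideal.absNorm qq.asIdeal : ℝ))⁻¹ < 1 := inv_lt_one_of_one_lt₀ h3
    linarith)
  obtain ⟨W', hW'⟩ := crt N M hcop W
  obtain ⟨e, he0, hdvd, hesum⟩ := hlat (Fin n) (N * M) W' (by rw [Fintype.card_fin]; exact k6)
    (Nat.mul_pos hNpos (by omega)) hlogNM
  obtain ⟨hdN, hdM⟩ := hW' e hdvd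
  rw [Fintype.card_fin] at hesum
  set R : ℝ := (κ + δ) * Real.exp (1 + 2 * δ) * D * (n * (n * L)) with hR
  have hR1 : ∑ i, |(e i : ℝ)| ≤ R := by
    refine hesum.trans ?_
    calc (κ + δ) * n * Real.exp (Real.log ((N * M : ℕ) : ℝ) / n)
        ≤ (κ + δ) * n * (D * (n * L) * Real.exp (1 + 2 * δ)) :=
          mul_le_mul_of_nonneg_left hexp (by positivity)
      _ = R := by rw [hR]; ring
  have hR2 : R < (n : ℝ) ^ 4 := by
    have h1 : (κ + δ) * Real.exp (1 + 2 * δ) * D < n := lt_of_lt_of_le hb5 (by exact_mod_cast k7)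
    calc R ≤ (κ + δ) * Real.exp (1 + 2 * δ) * D * (n * (n * n)) := by
          rw [hR]
          have : 0 ≤ (κ + δ) * Real.exp (1 + 2 * δ) * D := by positivity
          gcongr
      _ < n * (n * (n * n)) := mul_lt_mul_of_pos_right h1 (by positivity)
      _ = (n : ℝ) ^ 4 := by ring
  have he00 : ∑ i, e i = 0 := by
    refine Int.eq_zero_of_abs_lt_dvd hdM ?_
    have h1 : ((|∑ i, e i| : ℤ) : ℝ) ≤ ∑ i, |(e i : ℝ)| := by
      rw [Int.cast_abs]
      push_cast
      exact Finset.abs_sum_le_sum_abs _ _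
    have h2 : ((|∑ i, e i| : ℤ) : ℝ) < ((M : ℤ) : ℝ) := by
      have h3 : ((n ^ 4 : ℕ) : ℝ) < (M : ℝ) := by exact_mod_cast hMn
      push_cast at h3 ⊢
      push_cast at h1
      linarith
    exact_mod_cast h2
  obtain ⟨ht1, ht2⟩ := sum_toNat e he00
  set t : Fin n → ℕ := fun i => (e i).toNat with ht
  set s : Fin n → ℕ := fun i => (-(e i)).toNat with hs
  obtain ⟨i0, hi0⟩ : ∃ i, e i ≠ 0 := by
    by_contra hcon
    push Not at hcon
    exact he0 (funext hcon)
  have hts : t i0 ≠ s i0 := by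
    simp only [ht, hs]
    omega
  set a : 𝓞 K := mon π v t with ha
  set b : 𝓞 K := mon π v s with hb
  have ha0 : (a : K) ≠ 0 := by
    have := mon_ne (v := v) hπ0 t
    exact_mod_cast this
  have hb0 : (b : K) ≠ 0 := by
    have := mon_ne (v := v) hπ0 s
    exact_mod_cast this
  have hvi0 : fv (v i0) (a : K) ≠ fv (v i0) (b : K) := by
    rw [ha, hb, fv_mon_self hπ1 hπ2 hvT2 hinj, fv_mon_self hπ1 hπ2 hvT2 hinj]
    intro h
    have h1 := inv_injective h
    exact hts (pow_right_injective₀ (by linarith [one_lt_norm (v i0)])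
      (one_lt_norm (v i0)).ne' h1)
  have hab : (a : K) ≠ (b : K) := fun h => hvi0 (by rw [h])
  set S : Finset (HeightOneSpectrum (𝓞 K)) := univ.image v with hS
  have hSv : ∀ {u : HeightOneSpectrum (𝓞 K)}, u ∉ S → ∀ i, v i ≠ u := by
    intro u hu i h
    exact hu (Finset.mem_image.2 ⟨i, mem_univ _, h⟩)
  have hqS : qq ∉ S := by
    intro h
    obtain ⟨i, -, hi⟩ := Finset.mem_image.1 h
    exact hvqq i hi
  refine ⟨S, k, a, b, ⟨ha0, hb0, hab, ?_, ?_, hqT2, hqS, ?_⟩, ?_, ?_, ?_⟩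
  · intro u hu huS
    exact ⟨fv_mon_one hπ2 hvT2 hu (hSv huS) t, fv_mon_one hπ2 hvT2 hu (hSv huS) s⟩
  · intro u _
    exact ⟨fv_int_le u _, fv_int_le u _⟩
  · have h1 : a - b ∈ qq.asIdeal ^ k := hW e hdN
    have h2 : a - b ≠ 0 := by
      intro h
      apply hab
      rw [sub_eq_zero.1 h]
    have h3 := fv_le_of_mem qq h2 h1
    have h4 : ((a - b : 𝓞 K) : K) = (a : K) - (b : K) := by push_cast; rfl
    rwa [h4] at h3
  · -- the height
    have hy1 : (1 : ℝ) ≤ (1 + δ) * D * (n * L) := by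
      have h1 : 1 ≤ (1 + δ) * D := by nlinarith
      have h2 : 1 ≤ n * L := by nlinarith
      nlinarith
    have h1 := height_mon (v := v) hC hπ0 hπ3 hvy hy1 t s le_rfl (le_of_eq ht1.symm)
    have h2 : Real.log (C * ((1 + δ) * D * (n * L))) ≤ (1 + δ) * L := by
      have h3 : C * ((1 + δ) * D * (n * L)) = (C * ((1 + δ) * D)) * (n * L) := by ring
      have h4 : (0 : ℝ) < C * ((1 + δ) * D) := by positivity
      rw [h3, Real.log_mul h4.ne' (by positivity), Real.log_mul hn0.ne' hL0.ne']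
      linarith
    have h5 : ((∑ i, t i : ℕ) : ℝ) ≤ R / 2 := by
      rw [ht2]
      linarith
    have h6 : ((∑ i, t i : ℕ) : ℝ) * Real.log (C * ((1 + δ) * D * (n * L))) ≤
        R / 2 * ((1 + δ) * L) := by
      refine mul_le_mul h5 h2 ?_ (by positivity)
      exact Real.log_nonneg (one_le_mul_of_one_le_of_one_le hC hy1)
    have h7 : R / 2 * ((1 + δ) * L) =
        ((κ + δ) * Real.exp (1 + 2 * δ) * (1 + δ) / 2) * (D * (n * L) ^ 2) := by
      rw [hR]; ring
    have h8 : ((κ + δ) * Real.exp (1 + 2 * δ) * (1 + δ) / 2) * (D * (n * L) ^ 2) ≤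
        16 / 6.84 ^ 2 * (D * (n * L) ^ 2) := mul_le_mul_of_nonneg_right hδ (by positivity)
    calc logHeight ![(a : K), (b : K)] ≤ _ := h1
      _ ≤ _ := h6
      _ = _ := h7
      _ ≤ _ := h8
      _ = _ := by ring
  · rw [hell, hS, Finset.sum_image (fun i _ j _ h => hinj h)]
    linarith
  · have hu0 : (a : K) / b ≠ 0 := div_ne_zero ha0 hb0
    refine gen_top _ hu0 (v i0) (Ideal.absNorm (v i0).asIdeal) (hvp i0) rfl
      (hram _ (hvT2 i0) _ (hvp i0)) ?_ ?_
    · rw [map_div₀]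
      intro h
      have h1 : fv (v i0) (b : K) ≠ 0 := ((fv (v i0)).pos hb0).ne'
      exact hvi0 ((div_eq_one_iff_eq h1).1 h)
    · intro v' hv' hmem
      have hv'T2 : v' ∉ T2 := fun h => hT2v i0 v' h hmem
      have hv'S : v' ∉ S := by
        intro h
        obtain ⟨i, -, hi⟩ := Finset.mem_image.1 h
        have hne : i ≠ i0 := by
          rintro rfl
          exact hv' hi.symm
        have hnn : Ideal.absNorm (v i).asIdeal ≠ Ideal.absNorm (v i0).asIdeal :=
          fun h => hne (hvinj h)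
        have hcop2 : IsCoprime (Ideal.absNorm (v i).asIdeal : ℤ) (Ideal.absNorm (v i0).asIdeal : ℤ) :=
          Nat.isCoprime_iff_coprime.2 ((Nat.coprime_primes (hvp i) (hvp i0)).2 hnn)
        obtain ⟨x, y, hxy⟩ := hcop2
        have h3 : ((x : 𝓞 K) * ((Ideal.absNorm (v i).asIdeal : ℕ) : 𝓞 K) +
            (y : 𝓞 K) * ((Ideal.absNorm (v i0).asIdeal : ℕ) : 𝓞 K)) = 1 := by
          have h0 := congrArg (Int.cast : ℤ → 𝓞 K) hxy
          push_cast at h0
          exact h0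
        have h2 : (1 : 𝓞 K) ∈ v'.asIdeal := by
          rw [← h3]
          refine v'.asIdeal.add_mem (v'.asIdeal.mul_mem_left _ ?_) (v'.asIdeal.mul_mem_left _ hmem)
          rw [← hi]
          exact Ideal.absNorm_mem _
        exact v'.isPrime.ne_top ((Ideal.eq_top_iff_one _).2 h2)
      rw [map_div₀, ha, hb, fv_mon_one hπ2 hvT2 hv'T2 (hSv hv'S) t,
        fv_mon_one hπ2 hvT2 hv'T2 (hSv hv'S) s, div_one]

end Pool.Agent.U168.KP
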