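import Mathlib

/-!
The final comparison: `κ √h / log h + C ≤ 2 n / D` for `h ≤ μ (n log n) ^ 2 + C'`.
-/

set_option autoImplicit false

namespace Pool.Agent.U168.KP

open Filter Topology

/-- `√t / log t` is increasing for `t ≥ e ^ 2` -/
lemma sqrt_div_log_mono {s t : ℝ} (hs : Real.exp 2 ≤ s) (hst : s ≤ t) :
    √s / Real.log s ≤ √t / Real.log t := by
  have he : 1 < Real.exp 2 := Real.one_lt_exp_iff.2 (by norm_num)
  have hs0 : 0 < s := by linarith
  have ht0 : 0 < t := by linarith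
  have h := Real.log_div_sqrt_antitoneOn (a := s) (b := t) hs (hs.trans hst) hst
  have hls : 0 < Real.log s := Real.log_pos (by linarith)
  have hlt : 0 < Real.log t := Real.log_pos (by linarith)
  have hss : 0 < √s := Real.sqrt_pos.2 hs0
  have hst' : 0 < √t := Real.sqrt_pos.2 ht0
  have h2 := one_div_le_one_div_of_le (div_pos hlt hst') h
  rwa [one_div_div, one_div_div] at h2

theorem final_asym {D κ C : ℝ} (hD : 1 ≤ D) (hκ : κ < 6.84 / D) :
    ∀ᶠ n : ℕ in atTop, ∀ h : ℝ, Real.exp 2 ≤ h →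
      h ≤ 16 / 6.84 ^ 2 * (n * Real.log n) ^ 2 + C →
      κ * √h / Real.log h + C ≤ 2 * n / D := by
  set κ' : ℝ := max κ 0 with hκ'
  have hκ'0 : 0 ≤ κ' := le_max_right _ _
  have hκ'1 : κ' < 6.84 / D := max_lt hκ (by positivity)
  -- a small parameter
  obtain ⟨ε, hε0, hε⟩ : ∃ ε : ℝ, 0 < ε ∧ κ' * ((1 + ε) * (2 / 6.84)) + ε < 2 / D := by
    have hc : Continuous fun ε : ℝ => κ' * ((1 + ε) * (2 / 6.84)) + ε := by fun_prop
    have h0 : κ' * ((1 + 0) * (2 / 6.84)) + 0 < 2 / D := by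
      rw [add_zero, add_zero, one_mul]
      have : (2 : ℝ) / D = 6.84 / D * (2 / 6.84) := by field_simp
      rw [this]
      exact mul_lt_mul_of_pos_right hκ'1 (by norm_num)
    have h1 := (hc.tendsto 0).eventually (gt_mem_nhds h0)
    obtain ⟨r, hr, hr2⟩ := Metric.eventually_nhds_iff.1 h1
    refine ⟨r / 2, by positivity, hr2 ?_⟩
    rw [Real.dist_0_eq_abs, abs_of_pos (by positivity)]
    linarith
  have hlogt : Tendsto (fun j : ℕ => Real.log j) atTop atTop :=
    Real.tendsto_log_atTop.comp tendsto_natCast_atTop_atTop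
  have hnt : Tendsto (fun j : ℕ => (j : ℝ)) atTop atTop := tendsto_natCast_atTop_atTop
  filter_upwards [hlogt.eventually_ge_atTop 2, hnt.eventually_ge_atTop (|C| / ε + |C| + 3),
    hnt.eventually_ge_atTop (|C| / (16 / 6.84 ^ 2 * ε) + 3)] with n k1 k2 k3 h hh1 hh2
  have hC0 := abs_nonneg C
  have hn3 : (3 : ℝ) ≤ n := by
    have : 0 ≤ |C| / ε := by positivity
    linarith
  have hn0 : (0 : ℝ) < n := by linarith
  set L := Real.log n with hL
  have hL0 : 0 < L := by linarith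
  -- the upper bound
  have hH : h ≤ 16 / 6.84 ^ 2 * ((1 + ε) * (n * L)) ^ 2 := by
    refine hh2.trans ?_
    have h1 : C ≤ |C| := le_abs_self C
    have h2 : |C| ≤ (16 / 6.84 ^ 2 * ε) * n := by
      have : |C| / (16 / 6.84 ^ 2 * ε) ≤ n := by linarith
      rwa [div_le_iff₀' (by positivity)] at this
    have h3 : (n : ℝ) ≤ (n * L) ^ 2 := by
      have : (1 : ℝ) ≤ L := by linarith
      have h4 : (n : ℝ) ≤ n * L := by nlinarith
      nlinarith
    have h4 : (16 / 6.84 ^ 2 * ε) * n ≤ (16 / 6.84 ^ 2 * ε) * (n * L) ^ 2 :=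
      mul_le_mul_of_nonneg_left h3 (by positivity)
    have h5 : 16 / 6.84 ^ 2 * ((1 + ε) * (n * L)) ^ 2 =
        16 / 6.84 ^ 2 * (n * L) ^ 2 + (16 / 6.84 ^ 2 * ε) * (n * L) ^ 2 * (2 + ε) := by ring
    rw [h5]
    have h6 : 0 ≤ (16 / 6.84 ^ 2 * ε) * (n * L) ^ 2 := by positivity
    nlinarith
  set H : ℝ := 16 / 6.84 ^ 2 * ((1 + ε) * (n * L)) ^ 2 with hHd
  have hsq : √H = 4 / 6.84 * ((1 + ε) * (n * L)) := by
    have : H = (4 / 6.84 * ((1 + ε) * (n * L))) ^ 2 := by rw [hHd]; ring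
    rw [this, Real.sqrt_sq (by positivity)]
  have hlogH : 2 * L ≤ Real.log H := by
    have h1 : (n : ℝ) ^ 2 ≤ H := by
      have h2 : (n : ℝ) ≤ 4 / 6.84 * ((1 + ε) * (n * L)) := by
        have h3 : (1 : ℝ) ≤ 4 / 6.84 * ((1 + ε) * L) := by
          have h4 : 2 ≤ (1 + ε) * L := by nlinarith
          have h5 : (1 : ℝ) ≤ 4 / 6.84 * 2 := by norm_num
          have h6 := mul_le_mul_of_nonneg_left h4 (by norm_num : (0 : ℝ) ≤ 4 / 6.84)
          linarith
        calc (n : ℝ) = n * 1 := (mul_one _).symm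
          _ ≤ n * (4 / 6.84 * ((1 + ε) * L)) := mul_le_mul_of_nonneg_left h3 hn0.le
          _ = _ := by ring
      have : H = (4 / 6.84 * ((1 + ε) * (n * L))) ^ 2 := by rw [hHd]; ring
      rw [this]
      exact pow_le_pow_left₀ hn0.le h2 2
    have h2 := Real.log_le_log (by positivity) h1
    rw [Real.log_pow] at h2
    push_cast at h2
    exact h2
  have hh0 : 0 < h := lt_of_lt_of_le (Real.exp_pos 2) hh1
  have hmono := sqrt_div_log_mono hh1 hH
  have hlogh : 0 < Real.log h := by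
    apply Real.log_pos
    have : (1 : ℝ) < Real.exp 2 := Real.one_lt_exp_iff.2 (by norm_num)
    linarith
  have h1 : √H / Real.log H ≤ (1 + ε) * (2 / 6.84) * n := by
    rw [div_le_iff₀ (by linarith), hsq]
    calc 4 / 6.84 * ((1 + ε) * (n * L)) = (1 + ε) * (2 / 6.84) * n * (2 * L) := by ring
      _ ≤ _ := mul_le_mul_of_nonneg_left hlogH (by positivity)
  have h2 : κ * √h / Real.log h ≤ κ' * ((1 + ε) * (2 / 6.84) * n) := by
    calc κ * √h / Real.log h = κ * (√h / Real.log h) := by ring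
      _ ≤ κ' * (√h / Real.log h) := mul_le_mul_of_nonneg_right (le_max_left _ _) (by positivity)
      _ ≤ κ' * ((1 + ε) * (2 / 6.84) * n) := mul_le_mul_of_nonneg_left (hmono.trans h1) hκ'0
  have h3 : C ≤ ε * n := by
    have h4 : |C| / ε ≤ n := by linarith
    rw [div_le_iff₀ hε0] at h4
    linarith [le_abs_self C]
  calc κ * √h / Real.log h + C ≤ κ' * ((1 + ε) * (2 / 6.84) * n) + ε * n := add_le_add h2 h3
    _ = (κ' * ((1 + ε) * (2 / 6.84)) + ε) * n := by ring
    _ ≤ 2 / D * n := mul_le_mul_of_nonneg_right hε.le hn0.le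
    _ = 2 * n / D := by ring

end Pool.Agent.U168.KP
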