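import Mathlib
import Pool.Agent.W231.V.Ht

/-!
Balanced generators: every nonzero integer has an associate all of whose archimedean absolute
values are at most `C N(a) ^ (1 / d)`.
-/

set_option autoImplicit false

namespace Pool.Agent.U168.KP

open NumberField IsDedekindDomain Finset Pool.Agent.W231.V NumberField.mixedEmbedding
  NumberField.mixedEmbedding.fundamentalCone

open scoped Classical in
/-- every nonzero integer of `K` has a balanced associate -/
theorem exists_balanced (K : Type*) [Field K] [NumberField K] : ∃ C : ℝ, 1 ≤ C ∧ ∀ a : 𝓞 K, a ≠ 0 →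
    ∃ u : (𝓞 K)ˣ, ∀ w : InfinitePlace K, w ((u * a : 𝓞 K) : K) ≤
      C * (Ideal.absNorm (Ideal.span {a}) : ℝ) ^ ((Module.finrank ℚ K : ℝ)⁻¹) := by
  obtain ⟨C0, hC0⟩ : ∃ C : ℝ, ∀ x ∈ normLeOne K, ‖x‖ ≤ C :=
    isBounded_iff_forall_norm_le.1 (isBounded_normLeOne K)
  refine ⟨max C0 1, le_max_right _ _, fun a ha => ?_⟩
  set x : mixedSpace K := mixedEmbedding K (a : K) with hx
  have haK : (a : K) ≠ 0 := by simpa using ha
  have hxn : mixedEmbedding.norm x = (Ideal.absNorm (Ideal.span {a}) : ℝ) := by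
    rw [hx, mixedEmbedding.norm_eq_norm, Ideal.absNorm_span_singleton]
    rw [← Algebra.coe_norm_int a]
    rw [Nat.cast_natAbs]
    push_cast
    rfl
  have hN0 : (0 : ℝ) < (Ideal.absNorm (Ideal.span {a}) : ℝ) := by
    have : Ideal.absNorm (Ideal.span {a}) ≠ 0 := by
      rw [Ne, Ideal.absNorm_eq_zero_iff, Ideal.span_singleton_eq_bot]
      exact ha
    exact_mod_cast Nat.pos_of_ne_zero this
  obtain ⟨u, hu⟩ := exists_unit_smul_mem (K := K) (x := x) (by rw [hxn]; exact hN0.ne')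
  refine ⟨u, fun w => ?_⟩
  set N : ℝ := (Ideal.absNorm (Ideal.span {a}) : ℝ) with hN
  set D : ℝ := (Module.finrank ℚ K : ℝ) with hD
  have hD0 : 0 < D := by
    rw [hD]; exact_mod_cast (Module.finrank_pos : 0 < Module.finrank ℚ K)
  set c : ℝ := N ^ (-(D⁻¹)) with hc
  have hc0 : 0 < c := Real.rpow_pos_of_pos hN0 _
  have h1 : c • (u • x) ∈ normLeOne K := by
    rw [mem_normLeOne]
    refine ⟨smul_mem_of_mem hu hc0.ne', ?_⟩
    rw [mixedEmbedding.norm_smul, norm_unit_smul, hxn, abs_of_pos hc0, hc, ← Real.rpow_natCast,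
      ← Real.rpow_mul hN0.le]
    have : (-(D⁻¹) * (Module.finrank ℚ K : ℝ)) = -1 := by
      rw [← hD]; field_simp
    rw [this, Real.rpow_neg_one, inv_mul_cancel₀ hN0.ne']
  have h2 : ‖c • (u • x)‖ ≤ C0 := hC0 _ h1
  have h3 : normAtPlace w (c • (u • x)) ≤ ‖c • (u • x)‖ := by
    rw [norm_eq_sup'_normAtPlace]
    exact Finset.le_sup' (fun w => normAtPlace w (c • (u • x))) (mem_univ w)
  have h4 : normAtPlace w (c • (u • x)) = c * w ((u * a : 𝓞 K) : K) := by
    rw [normAtPlace_smul, abs_of_pos hc0]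
    congr 1
    rw [unitSMul_smul, hx, ← map_mul, normAtPlace_apply]
    simp
  have h5 : c * w ((u * a : 𝓞 K) : K) ≤ max C0 1 := by
    rw [← h4]
    exact h3.trans (h2.trans (le_max_left _ _))
  have h6 : c * N ^ (D⁻¹) = 1 := by
    rw [hc, ← Real.rpow_add hN0]; simp
  calc w ((u * a : 𝓞 K) : K) = (c * w ((u * a : 𝓞 K) : K)) * N ^ (D⁻¹) := by
        rw [mul_comm c, mul_assoc, h6, mul_one]
    _ ≤ max C0 1 * N ^ (D⁻¹) := mul_le_mul_of_nonneg_right h5 (Real.rpow_nonneg hN0.le _)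

end Pool.Agent.U168.KP
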