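import Pool.Agent.U168.KP.Gens

/-!
Discrete logarithms modulo a power of a prime of degree one, and short vectors.
-/

set_option autoImplicit false

namespace Pool.Agent.U168.KP

open NumberField IsDedekindDomain Finset Pool.Agent.W231.V

variable {K : Type*} [Field K] [NumberField K]

lemma zpow_sum' {G ι : Type*} [CommGroup G] (g : G) (s : Finset ι) (f : ι → ℤ) :
    g ^ (∑ i ∈ s, f i) = ∏ i ∈ s, g ^ f i := by
  classical
  induction s using Finset.induction_on with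
  | empty => simp
  | insert a s ha ih => rw [sum_insert ha, prod_insert ha, zpow_add, ih]

section

variable (qq : HeightOneSpectrum (𝓞 K)) {l : ℕ} (hl : l.Prime) (hq : Ideal.absNorm qq.asIdeal = l)
  (hram : (l : 𝓞 K) ∉ qq.asIdeal ^ 2)

include hq in
lemma l_mem : (l : 𝓞 K) ∈ qq.asIdeal := by
  have := Ideal.absNorm_mem qq.asIdeal
  rwa [hq] at this

include hl hq hram in
lemma fv_l : fv qq ((l : 𝓞 K) : K) = (l : ℝ)⁻¹ := by
  have hl0 : (l : 𝓞 K) ≠ 0 := by exact_mod_cast hl.ne_zero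
  have hfin : FiniteMultiplicity qq.asIdeal (Ideal.span {(l : 𝓞 K)}) :=
    FiniteMultiplicity.of_prime_left qq.prime (by simpa using hl0)
  have h1 : multiplicity qq.asIdeal (Ideal.span {(l : 𝓞 K)}) = 1 := by
    apply le_antisymm
    · have h2 : multiplicity qq.asIdeal (Ideal.span {(l : 𝓞 K)}) < 2 := by
        rw [hfin.multiplicity_lt_iff_not_dvd, Ideal.dvd_span_singleton]
        exact hram
      omega
    · refine hfin.le_multiplicity_of_pow_dvd ?_
      rw [pow_one, Ideal.dvd_span_singleton]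
      exact l_mem qq hq
  rw [fv_int qq hl0, h1, hq]
  simp

include hl hq in
lemma fv_y {y : ℕ} (hy : ¬ l ∣ y) : fv qq ((y : 𝓞 K) : K) = 1 := by
  have hy0 : (y : 𝓞 K) ≠ 0 := by
    intro h
    have : y = 0 := by exact_mod_cast h
    exact hy (this ▸ dvd_zero l)
  have h1 : ¬ qq.asIdeal ∣ Ideal.span {(y : 𝓞 K)} := by
    rw [Ideal.dvd_span_singleton]
    intro h
    have hcop : IsCoprime (l : ℤ) (y : ℤ) :=
      Nat.isCoprime_iff_coprime.2 ((Nat.Prime.coprime_iff_not_dvd hl).2 hy)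
    obtain ⟨a, b, hab⟩ := hcop
    have h2 : (1 : 𝓞 K) ∈ qq.asIdeal := by
      have h3 : ((a : 𝓞 K) * (l : 𝓞 K) + (b : 𝓞 K) * (y : 𝓞 K)) = 1 := by
        have h0 := congrArg (Int.cast : ℤ → 𝓞 K) hab
        push_cast at h0
        exact h0
      rw [← h3]
      exact qq.asIdeal.add_mem (qq.asIdeal.mul_mem_left _ (l_mem qq hq))
        (qq.asIdeal.mul_mem_left _ h)
    exact qq.isPrime.ne_top ((Ideal.eq_top_iff_one _).2 h2)
  rw [fv_int qq hy0, multiplicity_eq_zero.2 h1]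
  simp

include hl hq hram in
lemma nat_mem_iff (k x : ℕ) : (x : 𝓞 K) ∈ qq.asIdeal ^ k ↔ l ^ k ∣ x := by
  constructor
  · intro h
    rcases Nat.eq_zero_or_pos x with rfl | hx
    · exact dvd_zero _
    obtain ⟨j, y, hy, rfl⟩ := Nat.exists_eq_pow_mul_and_not_dvd hx.ne' l hl.ne_one
    have hx0 : ((l ^ j * y : ℕ) : 𝓞 K) ≠ 0 := by exact_mod_cast hx.ne'
    have h1 := fv_le_of_mem qq hx0 h
    have h2 : fv qq (((l ^ j * y : ℕ) : 𝓞 K) : K) = ((l : ℝ) ^ j)⁻¹ := by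
      have h3 : (((l ^ j * y : ℕ) : 𝓞 K) : K) = ((l : 𝓞 K) : K) ^ j * ((y : 𝓞 K) : K) := by
        push_cast
        rfl
      rw [h3, map_mul, map_pow, fv_l qq hl hq hram, fv_y qq hl hq hy, mul_one, inv_pow]
    rw [h2, hq] at h1
    have hl1 : (1 : ℝ) < l := by exact_mod_cast hl.one_lt
    have h4 : (l : ℝ) ^ k ≤ (l : ℝ) ^ j :=
      (inv_le_inv₀ (pow_pos (by linarith) _) (pow_pos (by linarith) _)).1 h1
    have h5 : k ≤ j := (pow_le_pow_iff_right₀ hl1).1 h4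
    exact Dvd.dvd.mul_right (pow_dvd_pow l h5) y
  · rintro ⟨y, rfl⟩
    push_cast
    exact Ideal.mul_mem_right _ _ (Ideal.pow_mem_pow (l_mem qq hq) k)

include hl hq hram in
lemma charP_quot (k : ℕ) : CharP (𝓞 K ⧸ qq.asIdeal ^ k) (l ^ k) := by
  refine ⟨fun x => ?_⟩
  have h1 : (x : 𝓞 K ⧸ qq.asIdeal ^ k) = Ideal.Quotient.mk (qq.asIdeal ^ k) (x : 𝓞 K) := by simp
  rw [h1, Ideal.Quotient.eq_zero_iff_mem, nat_mem_iff qq hl hq hram]

include hq in
lemma card_quot (k : ℕ) : Nat.card (𝓞 K ⧸ qq.asIdeal ^ k) = l ^ k := by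
  rw [← hq, ← map_pow, Ideal.absNorm_apply, Submodule.cardQuot_apply]

lemma finite_quot (k : ℕ) : Finite (𝓞 K ⧸ qq.asIdeal ^ k) :=
  Ideal.finiteQuotientOfFreeOfNeBot _ (pow_ne_zero k qq.ne_bot)

include hl hq hram in
lemma units_cyclic (hl2 : l ≠ 2) (k : ℕ) : IsCyclic (𝓞 K ⧸ qq.asIdeal ^ k)ˣ ∧
    Nat.card (𝓞 K ⧸ qq.asIdeal ^ k)ˣ = (l ^ k).totient := by
  have := finite_quot qq k
  have := Fintype.ofFinite (𝓞 K ⧸ qq.asIdeal ^ k)
  have := charP_quot qq hl hq hram k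
  have : NeZero (l ^ k) := ⟨pow_ne_zero k hl.ne_zero⟩
  have hcard : Fintype.card (𝓞 K ⧸ qq.asIdeal ^ k) = l ^ k := by
    rw [← Nat.card_eq_fintype_card]
    exact card_quot qq hq k
  have e := ZMod.ringEquiv (𝓞 K ⧸ qq.asIdeal ^ k) hcard
  have eu := Units.mapEquiv (e : ZMod (l ^ k) ≃* (𝓞 K ⧸ qq.asIdeal ^ k))
  have hc := ZMod.isCyclic_units_of_prime_pow l hl hl2 k
  refine ⟨isCyclic_of_surjective eu eu.surjective, ?_⟩
  rw [← Nat.card_congr eu.toEquiv, Nat.card_eq_fintype_card, ZMod.card_units_eq_totient]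

lemma isUnit_of_notMem (k : ℕ) {p : 𝓞 K} (hp : p ∉ qq.asIdeal) :
    IsUnit (Ideal.Quotient.mk (qq.asIdeal ^ k) p) := by
  have h1 : IsCoprime (Ideal.span {p}) qq.asIdeal := by
    rw [Ideal.isCoprime_iff_sup_eq]
    have hlt : qq.asIdeal < Ideal.span {p} ⊔ qq.asIdeal := by
      refine lt_of_le_of_ne le_sup_right fun h => hp ?_
      rw [h]
      exact Ideal.mem_sup_left (Ideal.mem_span_singleton_self p)
    exact qq.isMaximal.out.2 _ hlt
  have h2 := h1.pow_right (n := k)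
  rw [Ideal.isCoprime_iff_exists] at h2
  obtain ⟨i, hi, j, hj, hij⟩ := h2
  obtain ⟨b, rfl⟩ := Ideal.mem_span_singleton'.1 hi
  refine IsUnit.of_mul_eq_one (Ideal.Quotient.mk (qq.asIdeal ^ k) b) ?_
  rw [← map_mul, ← map_one (Ideal.Quotient.mk (qq.asIdeal ^ k)), Ideal.Quotient.eq]
  have : p * b - 1 = -j := by rw [← hij]; ring
  rw [this]
  exact Ideal.neg_mem_iff _ |>.2 hj

include hl hq hram in
/-- discrete logarithms -/
theorem dlog (hl2 : l ≠ 2) (k : ℕ) {n : ℕ} (p : Fin n → 𝓞 K) (hp : ∀ i, p i ∉ qq.asIdeal) :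
    ∃ W : Fin n → ℤ, ∀ e : Fin n → ℤ, ((l ^ k).totient : ℤ) ∣ ∑ i, W i * e i →
      ∏ i, p i ^ (e i).toNat - ∏ i, p i ^ (-(e i)).toNat ∈ qq.asIdeal ^ k := by
  obtain ⟨hc, hcard⟩ := units_cyclic qq hl hq hram hl2 k
  obtain ⟨g, hg⟩ := hc.exists_generator
  have hu := fun i => isUnit_of_notMem qq k (hp i)
  choose u hu using hu
  have hW : ∀ i, ∃ w : ℤ, g ^ w = u i := fun i => Subgroup.mem_zpowers_iff.1 (hg (u i))
  choose W hW using hW
  refine ⟨W, fun e he => ?_⟩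
  have h1 : ∏ i, u i ^ e i = 1 := by
    have h2 : ∏ i, u i ^ e i = g ^ (∑ i, W i * e i) := by
      rw [zpow_sum']
      refine Finset.prod_congr rfl fun i _ => ?_
      rw [zpow_mul, hW]
    rw [h2]
    obtain ⟨c, hc⟩ := he
    rw [hc, zpow_mul, zpow_natCast, ← hcard, pow_card_eq_one', one_zpow]
  have h2 : ∏ i, u i ^ (e i).toNat = ∏ i, u i ^ (-(e i)).toNat := by
    have h3 : ∀ i, u i ^ e i = u i ^ (e i).toNat * (u i ^ (-(e i)).toNat)⁻¹ := by
      intro i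
      have : e i = ((e i).toNat : ℤ) - ((-(e i)).toNat : ℤ) := (Int.toNat_sub_toNat_neg (e i)).symm
      conv_lhs => rw [this]
      rw [zpow_sub, zpow_natCast, zpow_natCast]
    rw [Finset.prod_congr rfl fun i _ => h3 i, Finset.prod_mul_distrib, Finset.prod_inv_distrib] at h1
    exact mul_inv_eq_one.1 h1
  rw [← Ideal.Quotient.eq, map_prod, map_prod]
  have h3 := congrArg (Units.val) h2
  rw [Units.coe_prod, Units.coe_prod] at h3
  simp only [Units.val_pow_eq_pow_val, hu] at h3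
  simpa using h3

end

end Pool.Agent.U168.KP
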