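import Pool.Agent.W231.V.Ht

/-!
Determinants of pairs of points of the projective line, local and global estimates.
-/

set_option autoImplicit false
set_option linter.unusedSectionVars false

namespace Pool.Agent.U168.KP

open NumberField IsDedekindDomain Height Finset Pool.Agent.W231.V

variable {K : Type*} [Field K] [NumberField K]

/-- the determinant -/
def dt (x a : Fin 2 → K) : K := x 0 * a 1 - x 1 * a 0

lemma cramer (x a b : Fin 2 → K) (j : Fin 2) :
    x j * dt a b = dt x b * a j - dt x a * b j := by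
  unfold dt
  fin_cases j
  · simp; ring
  · simp; ring

/-- the larger coordinate -/
noncomputable def mxv (v : HeightOneSpectrum (𝓞 K)) (x : Fin 2 → K) : ℝ :=
  max (fv v (x 0)) (fv v (x 1))

lemma mxv_nonneg (v : HeightOneSpectrum (𝓞 K)) (x : Fin 2 → K) : 0 ≤ mxv v x :=
  le_max_of_le_left ((fv v).nonneg _)

lemma le_mxv (v : HeightOneSpectrum (𝓞 K)) (x : Fin 2 → K) (j : Fin 2) : fv v (x j) ≤ mxv v x := by
  fin_cases j
  · exact le_max_left _ _
  · exact le_max_right _ _

lemma fv_sub_le (v : HeightOneSpectrum (𝓞 K)) (a b : K) : fv v (a - b) ≤ max (fv v a) (fv v b) := by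
  have := fv_na v a (-b)
  rwa [map_neg_eq_map, ← sub_eq_add_neg] at this

lemma fv_dt_le (v : HeightOneSpectrum (𝓞 K)) (x a : Fin 2 → K) :
    fv v (dt x a) ≤ mxv v x * mxv v a := by
  unfold dt
  refine (fv_sub_le v _ _).trans (max_le ?_ ?_)
  · rw [map_mul]
    exact mul_le_mul (le_mxv v x 0) (le_mxv v a 1) ((fv v).nonneg _) (mxv_nonneg v x)
  · rw [map_mul]
    exact mul_le_mul (le_mxv v x 1) (le_mxv v a 0) ((fv v).nonneg _) (mxv_nonneg v x)

/-- at most one of two points is close to `x` at a good prime -/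
lemma not_both (v : HeightOneSpectrum (𝓞 K)) (x a b : Fin 2 → K) (ha : mxv v a ≤ 1)
    (hb : mxv v b ≤ 1) (hab : fv v (dt a b) = 1) (h1 : fv v (dt x a) < mxv v x)
    (h2 : fv v (dt x b) < mxv v x) : False := by
  have h3 : ∀ j, fv v (x j) < mxv v x := by
    intro j
    have h4 : fv v (x j) = fv v (dt x b * a j - dt x a * b j) := by
      rw [← cramer, map_mul, hab, mul_one]
    rw [h4]
    refine lt_of_le_of_lt (fv_sub_le v _ _) (max_lt ?_ ?_)
    · rw [map_mul]
      calc fv v (dt x b) * fv v (a j) ≤ fv v (dt x b) * 1 :=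
            mul_le_mul_of_nonneg_left ((le_mxv v a j).trans ha) ((fv v).nonneg _)
        _ < mxv v x := by rwa [mul_one]
    · rw [map_mul]
      calc fv v (dt x a) * fv v (b j) ≤ fv v (dt x a) * 1 :=
            mul_le_mul_of_nonneg_left ((le_mxv v b j).trans hb) ((fv v).nonneg _)
        _ < mxv v x := by rwa [mul_one]
  exact absurd (max_lt (h3 0) (h3 1)) (lt_irrefl _)

lemma exists_bad (cs : Finset K) : ∃ T0 : Finset (HeightOneSpectrum (𝓞 K)), ∀ v ∉ T0, ∀ c ∈ cs,
    (c ≠ 0 → fv v c = 1) ∧ fv v c ≤ 1 := by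
  classical
  refine ⟨cs.attach.biUnion fun c => if h : (c : K) = 0 then ∅ else (fv_support_finite h).toFinset,
    fun v hv c hc => ?_⟩
  by_cases h : c = 0
  · exact ⟨fun h' => absurd h h', by rw [h, map_zero]; exact zero_le_one⟩
  · have h1 : fv v c = 1 := by
      by_contra hcon
      apply hv
      rw [Finset.mem_biUnion]
      refine ⟨⟨c, hc⟩, mem_attach _ _, ?_⟩
      rw [dif_neg h, Set.Finite.mem_toFinset]
      exact hcon
    exact ⟨fun _ => h1, h1.le⟩

lemma logHeight_mat_le {m l : ℕ} [NeZero m] [NeZero l] (A : Fin l → Fin m → K) :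
    ∃ C : ℝ, ∀ x : Fin m → K,
      logHeight (fun j => ∑ i, A j i * x i) ≤ logHeight x + C := by
  refine ⟨totalWeight K * Real.log (Nat.card (Fin m)) + logHeight (fun q : Fin l × Fin m => A q.1 q.2),
    fun x => ?_⟩
  have h1 := logHeight_linearMap_apply_le (fun q : Fin l × Fin m => A q.1 q.2) x
  simp only at h1
  linarith

/-- two linear forms on the line -/
lemma logHeight_pair_le (a b c d : K) : ∃ C : ℝ, ∀ x y : K,
    logHeight ![a * x + b * y, c * x + d * y] ≤ logHeight ![x, y] + C := by
  obtain ⟨C, hC⟩ := logHeight_mat_le (K := K) (m := 2) (l := 2) ![![a, b], ![c, d]]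
  refine ⟨C, fun x y => ?_⟩
  have h := hC ![x, y]
  have e : (fun j => ∑ i, (![![a, b], ![c, d]] : Fin 2 → Fin 2 → K) j i * ![x, y] i) =
      ![a * x + b * y, c * x + d * y] := by
    funext j
    fin_cases j <;> simp [Fin.sum_univ_two]
  rwa [e] at h

/-- a large value at a prime -/
lemma ell_le_posLog (v : HeightOneSpectrum (𝓞 K)) {u : K} (hu : u ≠ 0) (h : 1 < fv v u) :
    ell v ≤ Real.posLog (fv v u) := by
  obtain ⟨n, hn⟩ := fv_zpow v hu
  have h2 := one_lt_norm v
  have hn0 : 0 < n := by
    by_contra hc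
    rw [hn] at h
    have := zpow_le_one_of_nonpos₀ h2.le (not_lt.1 hc)
    linarith
  have hlog : Real.log (fv v u) = n * ell v := by
    rw [hn, Real.log_zpow]; rfl
  have h3 : Real.log (fv v u) ≤ Real.posLog (fv v u) := le_max_right _ _
  refine le_trans ?_ h3
  rw [hlog]
  have h4 : (1 : ℝ) ≤ (n : ℝ) := by exact_mod_cast hn0
  nlinarith [ell_pos v]

lemma logHeight_eq_of_dt {x a : Fin 2 → K} (hx : x ≠ 0) (ha : a ≠ 0) (h : dt x a = 0) :
    logHeight x = logHeight a := by
  unfold dt at h
  have h' : x 0 * a 1 = x 1 * a 0 := sub_eq_zero.1 h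
  by_cases h0 : a 0 = 0
  · have h1 : a 1 ≠ 0 := by
      intro h1
      apply ha
      funext j
      fin_cases j
      · exact h0
      · exact h1
    have hx0 : x 0 = 0 := by
      rw [h0, mul_zero] at h'
      exact (mul_eq_zero.1 h').resolve_right h1
    have hx1 : x 1 ≠ 0 := by
      intro h1
      apply hx
      funext j
      fin_cases j
      · exact hx0
      · exact h1
    have e : x = (x 1 / a 1) • a := by
      funext j
      fin_cases j
      · simp [h0, hx0]
      · simp [h1]
    rw [e, logHeight_smul_eq_logHeight a (div_ne_zero hx1 h1)]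
  · have hx0 : x 0 ≠ 0 := by
      intro h1
      rw [h1, zero_mul] at h'
      have h2 : x 1 = 0 := (mul_eq_zero.1 h'.symm).resolve_right h0
      apply hx
      funext j
      fin_cases j
      · exact h1
      · exact h2
    have e : x = (x 0 / a 0) • a := by
      funext j
      fin_cases j
      · simp [h0]
      · simp only [Pi.smul_apply, smul_eq_mul, Fin.mk_one]
        field_simp
        linear_combination -h'
    rw [e, logHeight_smul_eq_logHeight a (div_ne_zero hx0 h0)]

end Pool.Agent.U168.KP
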