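import Mathlib

/-!
An upper bound for the logarithm of the factorial.
-/

set_option autoImplicit false

namespace Pool.Agent.U168.KP

open Finset

lemma log_fac (n : ℕ) (hn : 1 ≤ n) :
    Real.log (n.factorial : ℝ) ≤ n * Real.log n - n + Real.log n + 1 := by
  induction n, hn using Nat.le_induction with
  | base => simp
  | succ n hn ih =>
    have hn0 : (0 : ℝ) < n := by exact_mod_cast hn
    rw [Nat.factorial_succ]
    push_cast
    rw [Real.log_mul (by positivity) (by positivity)]
    -- `log (n+1) - log n ≥ 1 / (n+1)`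
    have h1 : 1 / ((n : ℝ) + 1) ≤ Real.log ((n : ℝ) + 1) - Real.log n := by
      rw [← Real.log_div (by positivity) hn0.ne']
      have h2 := Real.one_sub_inv_le_log_of_pos (x := ((n : ℝ) + 1) / n) (by positivity)
      refine le_trans (le_of_eq ?_) h2
      field_simp
      ring
    have h3 : 1 ≤ ((n : ℝ) + 1) * (Real.log ((n : ℝ) + 1) - Real.log n) := by
      have := mul_le_mul_of_nonneg_left h1 (by positivity : (0 : ℝ) ≤ (n : ℝ) + 1)
      rwa [mul_one_div_cancel (by positivity)] at this
    nlinarith

/-- the number of monomials -/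
lemma log_choose (n m : ℕ) (hn : 1 ≤ n) (hm : 1 ≤ m) :
    n * Real.log m - n * Real.log n + n - Real.log n - 1 ≤ Real.log ((n + m).choose m : ℝ) := by
  have h1 : ((m : ℝ) ^ n) ≤ (n.factorial : ℝ) * ((n + m).choose m : ℝ) := by
    have h2 : m ^ n ≤ (m + 1).ascFactorial n := by
      refine le_trans ?_ (Nat.pow_succ_le_ascFactorial (m + 1) n)
      exact Nat.pow_le_pow_left (Nat.le_succ m) n
    have h3 : (m + 1).ascFactorial n = n.factorial * (m + n).choose n :=
      Nat.ascFactorial_eq_factorial_mul_choose m n
    rw [h3] at h2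
    have h4 : (m + n).choose n = (n + m).choose m := by
      rw [add_comm m n]
      exact (Nat.choose_symm_add)
    rw [h4] at h2
    exact_mod_cast h2
  have hm0 : (0 : ℝ) < m := by exact_mod_cast hm
  have hc : (0 : ℝ) < ((n + m).choose m : ℝ) := by
    exact_mod_cast Nat.choose_pos (Nat.le_add_left m n)
  have h5 := Real.log_le_log (by positivity) h1
  rw [Real.log_pow, Real.log_mul (by positivity) hc.ne'] at h5
  have h6 := log_fac n hn
  linarith

end Pool.Agent.U168.KP
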