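import Pool.Agent.U168.KP.Gens

/-!
An element which is a unit at all primes above `q` except at one of degree one generates `K`.
-/

set_option autoImplicit false
set_option linter.deprecated false

namespace Pool.Agent.U168.KP

open NumberField IsDedekindDomain Finset Pool.Agent.W231.V

variable {K : Type*} [Field K] [NumberField K]

lemma fv_eq_one_iff (v : HeightOneSpectrum (𝓞 K)) {x : K} (hx : x ≠ 0) :
    fv v x = 1 ↔ v.valuation K x = 1 := by
  have h1 : fv v x = _ := NumberField.FinitePlace.norm_embedding' (v := v) (x := x)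
  have hx' : v.valuation K x ≠ 0 := (Valuation.ne_zero_iff _).mpr hx
  rw [WithZeroMulInt.toNNReal_neg_apply _ hx'] at h1
  push_cast at h1
  have h2 := one_lt_norm v
  constructor
  · intro h
    rw [h] at h1
    have h3 : Multiplicative.toAdd (WithZero.unzero hx') = 0 := by
      have h4 : ((Ideal.absNorm v.asIdeal : ℝ)) ^ (Multiplicative.toAdd (WithZero.unzero hx')) = 1 :=
        h1.symm
      rcases lt_trichotomy (Multiplicative.toAdd (WithZero.unzero hx')) 0 with h | h | h
      · exact absurd h4 (zpow_lt_one_of_neg₀ h2 h).ne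
      · exact h
      · exact absurd h4 (one_lt_zpow₀ h2 h).ne'
    have h5 : WithZero.unzero hx' = 1 := by
      rw [← ofAdd_toAdd (WithZero.unzero hx'), h3]; rfl
    rw [← WithZero.coe_unzero hx', h5]; rfl
  · intro h
    have h5 : WithZero.unzero hx' = 1 := by
      apply WithZero.coe_injective
      rw [WithZero.coe_unzero, h]; rfl
    rw [h1, h5]
    simp

/-- the degree over a subfield is one as soon as an element of the subfield is a unit at all primes
above `q` except at one prime of degree one -/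
theorem finrank_one {F : Type*} [Field F] [NumberField F] [Algebra F K] (x : F) (hx : x ≠ 0)
    (v : HeightOneSpectrum (𝓞 K)) (q : ℕ) (hq : q.Prime) (hv : Ideal.absNorm v.asIdeal = q)
    (hq2 : (q : 𝓞 K) ∉ v.asIdeal ^ 2) (hu : fv v (algebraMap F K x) ≠ 1)
    (hother : ∀ v' : HeightOneSpectrum (𝓞 K), v' ≠ v → (q : 𝓞 K) ∈ v'.asIdeal →
      fv v' (algebraMap F K x) = 1) : Module.finrank F K = 1 := by
  classical
  have hxK : algebraMap F K x ≠ 0 := by simpa using hx
  have hqv : (q : 𝓞 K) ∈ v.asIdeal := by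
    have := Ideal.absNorm_mem v.asIdeal
    rwa [hv] at this
  have hwb : v.asIdeal.under (𝓞 F) ≠ ⊥ := by
    intro h
    have h1 : (q : 𝓞 F) ∈ v.asIdeal.under (𝓞 F) := by
      rw [Ideal.mem_comap]
      simpa using hqv
    rw [h, Ideal.mem_bot] at h1
    exact hq.ne_zero (by exact_mod_cast h1)
  set w : HeightOneSpectrum (𝓞 F) := ⟨v.asIdeal.under (𝓞 F), inferInstance, hwb⟩ with hw
  have hqw : (q : 𝓞 F) ∈ w.asIdeal := by
    change (q : 𝓞 F) ∈ v.asIdeal.under (𝓞 F)
    rw [Ideal.mem_comap]
    simpa using hqv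
  have hvw : v.asIdeal.LiesOver w.asIdeal := ⟨rfl⟩
  have : w.asIdeal.IsMaximal := w.isMaximal
  have hwx : w.valuation F x ≠ 1 := by
    intro h
    apply hu
    rw [fv_eq_one_iff v hxK, ← HeightOneSpectrum.valuation_liesOver K w v x, h, one_pow]
  have hprim : IsDedekindDomain.primesOverFinset w.asIdeal (𝓞 K) = {v.asIdeal} := by
    ext P
    rw [IsDedekindDomain.mem_primesOverFinset_iff w.ne_bot, Finset.mem_singleton]
    constructor
    · rintro ⟨hP1, hP2⟩
      by_contra hne
      have hPb : P ≠ ⊥ := by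
        rintro rfl
        have : w.asIdeal = ⊥ := by
          rw [hP2.over]
          exact Ideal.comap_bot_of_injective _ (FaithfulSMul.algebraMap_injective (𝓞 F) (𝓞 K))
        exact w.ne_bot this
      set v' : HeightOneSpectrum (𝓞 K) := ⟨P, hP1, hPb⟩ with hv'
      have hv'w : v'.asIdeal.LiesOver w.asIdeal := hP2
      have h1 : fv v' (algebraMap F K x) = 1 := by
        refine hother v' (fun h => hne ?_) ?_
        · rw [← h]
        · have h2 : (q : 𝓞 F) ∈ v'.asIdeal.under (𝓞 F) := by
            rw [← hv'w.over]; exact hqw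
          rw [Ideal.mem_comap] at h2
          simpa using h2
      rw [fv_eq_one_iff v' hxK, ← HeightOneSpectrum.valuation_liesOver K w v' x] at h1
      have he : w.asIdeal.ramificationIdx' v'.asIdeal ≠ 0 :=
        Ideal.IsDedekindDomain.ramificationIdx'_ne_zero_of_liesOver _ w.ne_bot
      exact hwx ((pow_eq_one_iff.1 h1).resolve_right he)
    · rintro rfl
      exact ⟨v.isPrime, hvw⟩
  have hsum := Ideal.sum_ramification_inertia (𝓞 K) F K (p := w.asIdeal) w.ne_bot
  rw [hprim, Finset.sum_singleton] at hsum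
  have he : w.asIdeal.ramificationIdx' v.asIdeal = 1 := by
    by_contra h
    have hle : w.asIdeal.map (algebraMap (𝓞 F) (𝓞 K)) ≤ v.asIdeal :=
      Ideal.map_le_iff_le_comap.2 hvw.over.le
    have h1 := (Ideal.ramificationIdx'_ne_one_iff hle).1 h
    apply hq2
    apply h1
    have h2 := Ideal.mem_map_of_mem (algebraMap (𝓞 F) (𝓞 K)) hqw
    simpa using h2
  have hf : w.asIdeal.inertiaDeg' v.asIdeal = 1 := by
    have h1 := Ideal.absNorm_eq_pow_inertiaDeg'_of_liesOver v.asIdeal w.asIdeal w.isPrime w.ne_bot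
    rw [hv] at h1
    rw [h1] at hq
    exact hq.eq_one_of_pow
  rw [he, hf] at hsum
  omega

/-- generation -/
theorem gen_top (u : K) (hu0 : u ≠ 0) (v : HeightOneSpectrum (𝓞 K)) (q : ℕ) (hq : q.Prime)
    (hv : Ideal.absNorm v.asIdeal = q) (hq2 : (q : 𝓞 K) ∉ v.asIdeal ^ 2) (hu : fv v u ≠ 1)
    (hother : ∀ v' : HeightOneSpectrum (𝓞 K), v' ≠ v → (q : 𝓞 K) ∈ v'.asIdeal → fv v' u = 1) :
    IntermediateField.adjoin ℚ {u} = ⊤ := by
  set F := IntermediateField.adjoin ℚ {u} with hF
  have huF : u ∈ F := IntermediateField.mem_adjoin_simple_self ℚ u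
  have h1 : Module.finrank F K = 1 := by
    refine finrank_one (F := F) ⟨u, huF⟩ ?_ v q hq hv hq2 hu hother
    intro h
    exact hu0 (congrArg Subtype.val h)
  exact IntermediateField.finrank_eq_one_iff_eq_top.1 h1

end Pool.Agent.U168.KP
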