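import Pool.Agent.U168.KP.Bal

/-!
Balanced generators of the primes outside a finite set, up to finitely many fixed ideals.
-/

set_option autoImplicit false

namespace Pool.Agent.U168.KP

open NumberField IsDedekindDomain Finset Pool.Agent.W231.V

variable {K : Type*} [Field K] [NumberField K]

/-- the absolute value of an integer in terms of the multiplicity -/
lemma fv_int (v : HeightOneSpectrum (𝓞 K)) {x : 𝓞 K} (hx : x ≠ 0) :
    fv v (x : K) = (Ideal.absNorm v.asIdeal : ℝ) ^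
      (-(multiplicity v.asIdeal (Ideal.span {x}) : ℤ)) := by
  have hxK : (x : K) ≠ 0 := by simpa using hx
  have h1 : fv v (x : K) = _ := NumberField.FinitePlace.norm_embedding' (v := v) (x := (x : K))
  have hx' : v.valuation K (x : K) ≠ 0 := (Valuation.ne_zero_iff _).mpr hxK
  rw [WithZeroMulInt.toNNReal_neg_apply _ hx'] at h1
  have h2 : v.valuation K (x : K) = v.intValuation x := HeightOneSpectrum.valuation_of_algebraMap v x
  have h3 := HeightOneSpectrum.intValuation_eq_exp_neg_multiplicity v hx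
  have h4 : WithZero.unzero hx' = Multiplicative.ofAdd (-(multiplicity v.asIdeal (Ideal.span {x}) : ℤ)) := by
    apply WithZero.coe_injective
    rw [WithZero.coe_unzero, h2, h3]
    rfl
  rw [h4] at h1
  rw [h1]
  push_cast
  rfl

lemma fv_int_le (v : HeightOneSpectrum (𝓞 K)) (x : 𝓞 K) : fv v (x : K) ≤ 1 := by
  rcases eq_or_ne x 0 with rfl | hx
  · simp
  · rw [fv_int v hx, zpow_neg, zpow_natCast]
    exact inv_le_one_of_one_le₀ (one_le_pow₀ (one_lt_norm v).le)

/-- membership in a power of a prime -/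
lemma fv_le_of_mem (v : HeightOneSpectrum (𝓞 K)) {x : 𝓞 K} (hx : x ≠ 0) {k : ℕ}
    (h : x ∈ v.asIdeal ^ k) : fv v (x : K) ≤ ((Ideal.absNorm v.asIdeal : ℝ) ^ k)⁻¹ := by
  rw [fv_int v hx, zpow_neg, zpow_natCast]
  have h1 : v.asIdeal ^ k ∣ Ideal.span {x} := by
    rw [Ideal.dvd_span_singleton]
    exact h
  have h2 : k ≤ multiplicity v.asIdeal (Ideal.span {x}) := by
    refine FiniteMultiplicity.le_multiplicity_of_pow_dvd ?_ h1
    refine FiniteMultiplicity.of_prime_left v.prime ?_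
    simpa using hx
  refine inv_anti₀ (pow_pos (by linarith [one_lt_norm v]) _) ?_
  exact pow_le_pow_right₀ (one_lt_norm v).le h2

/-- balanced generators of the primes outside a finite set, up to a fixed ideal in each class -/
theorem exists_gens (K : Type*) [Field K] [NumberField K] (T0 : Finset (HeightOneSpectrum (𝓞 K))) :
    ∃ (T2 : Finset (HeightOneSpectrum (𝓞 K))) (C : ℝ) (π : HeightOneSpectrum (𝓞 K) → 𝓞 K)
      (cl : HeightOneSpectrum (𝓞 K) → ClassGroup (𝓞 K))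
      (ρ : ClassGroup (𝓞 K) → HeightOneSpectrum (𝓞 K) → ℝ), T0 ⊆ T2 ∧ 1 ≤ C ∧
      (∀ v, π v ≠ 0) ∧
      (∀ v ∉ T2, fv v (π v : K) = (Ideal.absNorm v.asIdeal : ℝ)⁻¹) ∧
      (∀ v ∉ T2, ∀ u ∉ T2, u ≠ v → fv u (π v : K) = 1) ∧
      (∀ v ∉ T2, ∀ u ∈ T2, fv u (π v : K) = ρ (cl v) u) ∧
      (∀ v, ∀ w : InfinitePlace K, w (π v : K) ≤
        (C * (Ideal.absNorm v.asIdeal : ℝ)) ^ ((Module.finrank ℚ K : ℝ)⁻¹)) := by
  classical
  obtain ⟨C0, hC0, hbal⟩ := exists_balanced K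
  set D : ℝ := (Module.finrank ℚ K : ℝ) with hD
  have hD0 : 0 < D := by
    rw [hD]; exact_mod_cast (Module.finrank_pos : 0 < Module.finrank ℚ K)
  -- the ideals
  have hr : ∀ c : ClassGroup (𝓞 K), ∃ I : nonZeroDivisors (Ideal (𝓞 K)), ClassGroup.mk0 I = c⁻¹ :=
    fun c => ClassGroup.mk0_surjective c⁻¹
  choose r hr using hr
  set vm : HeightOneSpectrum (𝓞 K) → nonZeroDivisors (Ideal (𝓞 K)) :=
    fun v => ⟨v.asIdeal, mem_nonZeroDivisors_of_ne_zero v.ne_bot⟩ with hvm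
  set cl : HeightOneSpectrum (𝓞 K) → ClassGroup (𝓞 K) := fun v => ClassGroup.mk0 (vm v) with hcl
  have hg : ∀ v, ∃ g : 𝓞 K, g ≠ 0 ∧ Ideal.span {g} = v.asIdeal * (r (cl v) : Ideal (𝓞 K)) := by
    intro v
    have h1 : ClassGroup.mk0 (vm v * r (cl v)) = 1 := by
      rw [map_mul, hr]
      simp [hcl]
    rw [ClassGroup.mk0_eq_one_iff] at h1
    obtain ⟨g, hg⟩ := h1.1
    have hg2 : Ideal.span {g} = v.asIdeal * (r (cl v) : Ideal (𝓞 K)) := by
      rw [Ideal.submodule_span_eq] at hg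
      rw [← hg]
      rfl
    refine ⟨g, ?_, hg2⟩
    rintro rfl
    have h2 : v.asIdeal * (r (cl v) : Ideal (𝓞 K)) = ⊥ := by
      rw [← hg2]; simp
    rcases Ideal.mul_eq_bot.1 h2 with h | h
    · exact v.ne_bot h
    · exact nonZeroDivisors.ne_zero (r (cl v)).2 h
  choose g hg0 hg1 using hg
  choose un hun using fun v => hbal (g v) (hg0 v)
  -- the finite set
  have hfin : ∀ c, {v : HeightOneSpectrum (𝓞 K) | v.asIdeal ∣ (r c : Ideal (𝓞 K))}.Finite :=
    fun c => Ideal.finite_factors (nonZeroDivisors.ne_zero (r c).2)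
  set T2 : Finset (HeightOneSpectrum (𝓞 K)) := T0 ∪ Finset.univ.biUnion fun c => (hfin c).toFinset
    with hT2
  have hT2' : ∀ v ∉ T2, ∀ c, ¬ v.asIdeal ∣ (r c : Ideal (𝓞 K)) := by
    intro v hv c h
    apply hv
    rw [hT2, Finset.mem_union, Finset.mem_biUnion]
    exact Or.inr ⟨c, mem_univ _, by simpa using h⟩
  set R : ℝ := ∑ c, (Ideal.absNorm (r c : Ideal (𝓞 K)) : ℝ) with hR
  have hR1 : ∀ c, (Ideal.absNorm (r c : Ideal (𝓞 K)) : ℝ) ≤ R := fun c =>
    Finset.single_le_sum (f := fun c => (Ideal.absNorm (r c : Ideal (𝓞 K)) : ℝ))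
      (fun c _ => Nat.cast_nonneg _) (mem_univ c)
  have hr1 : ∀ c, (1 : ℝ) ≤ (Ideal.absNorm (r c : Ideal (𝓞 K)) : ℝ) := by
    intro c
    have : Ideal.absNorm (r c : Ideal (𝓞 K)) ≠ 0 := by
      rw [Ne, Ideal.absNorm_eq_zero_iff]
      exact nonZeroDivisors.ne_zero (r c).2
    exact_mod_cast Nat.one_le_iff_ne_zero.2 this
  have hRR : 1 ≤ R := (hr1 1).trans (hR1 1)
  have hspan : ∀ v, Ideal.span {((un v : 𝓞 K) * g v)} = v.asIdeal * (r (cl v) : Ideal (𝓞 K)) := by
    intro v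
    rw [← hg1 v, Ideal.span_singleton_mul_left_unit (un v).isUnit]
  have hne : ∀ v, (un v : 𝓞 K) * g v ≠ 0 := fun v => mul_ne_zero (un v).ne_zero (hg0 v)
  have hmul : ∀ u v : HeightOneSpectrum (𝓞 K),
      multiplicity u.asIdeal (Ideal.span {((un v : 𝓞 K) * g v)}) =
        multiplicity u.asIdeal v.asIdeal + multiplicity u.asIdeal (r (cl v) : Ideal (𝓞 K)) := by
    intro u v
    rw [hspan]
    refine multiplicity_mul u.prime ?_
    refine FiniteMultiplicity.of_prime_left u.prime ?_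
    exact mul_ne_zero v.ne_bot (nonZeroDivisors.ne_zero (r (cl v)).2)
  have hself : ∀ u : HeightOneSpectrum (𝓞 K), multiplicity u.asIdeal u.asIdeal = 1 := by
    intro u
    refine multiplicity_self
  have hother : ∀ u v : HeightOneSpectrum (𝓞 K), u ≠ v → multiplicity u.asIdeal v.asIdeal = 0 := by
    intro u v huv
    rw [multiplicity_eq_zero]
    intro h
    apply huv
    have h1 := (Ideal.dvd_iff_le.1 h)
    have h2 := v.isMaximal.eq_of_le u.isPrime.ne_top h1
    exact HeightOneSpectrum.ext h2.symm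
  refine ⟨T2, C0 ^ D * R, fun v => un v * g v, cl,
    fun c u => (Ideal.absNorm u.asIdeal : ℝ) ^ (-(multiplicity u.asIdeal (r c : Ideal (𝓞 K)) : ℤ)),
    Finset.subset_union_left, ?_, hne, ?_, ?_, ?_, ?_⟩
  · exact one_le_mul_of_one_le_of_one_le (Real.one_le_rpow hC0 hD0.le) hRR
  · intro v hv
    rw [fv_int v (hne v), hmul, hself, multiplicity_eq_zero.2 (hT2' v hv _)]
    simp
  · intro v hv u hu huv
    rw [fv_int u (hne v), hmul, hother u v huv, multiplicity_eq_zero.2 (hT2' u hu _)]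
    simp
  · intro v hv u hu
    rw [fv_int u (hne v), hmul, hother u v (fun h => hv (h ▸ hu)), zero_add]
  · intro v w
    refine (hun v w).trans ?_
    have h1 : (Ideal.absNorm (Ideal.span {g v}) : ℝ) =
        (Ideal.absNorm v.asIdeal : ℝ) * (Ideal.absNorm (r (cl v) : Ideal (𝓞 K)) : ℝ) := by
      rw [hg1 v, map_mul]; push_cast; rfl
    have hv0 : (0 : ℝ) ≤ (Ideal.absNorm v.asIdeal : ℝ) := Nat.cast_nonneg _
    have h2 : C0 * ((Ideal.absNorm (Ideal.span {g v}) : ℝ) ^ (D⁻¹)) =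
        (C0 ^ D * (Ideal.absNorm (Ideal.span {g v}) : ℝ)) ^ (D⁻¹) := by
      rw [Real.mul_rpow (Real.rpow_nonneg (by linarith) _) (Nat.cast_nonneg _),
        ← Real.rpow_mul (by linarith), mul_inv_cancel₀ hD0.ne', Real.rpow_one]
    rw [h2, h1]
    refine Real.rpow_le_rpow ?_ ?_ (inv_nonneg.2 hD0.le)
    · have := Real.rpow_nonneg (by linarith : (0 : ℝ) ≤ C0) D
      positivity
    · have h3 : (0 : ℝ) ≤ C0 ^ D := Real.rpow_nonneg (by linarith : (0 : ℝ) ≤ C0) D
      calc C0 ^ D * ((Ideal.absNorm v.asIdeal : ℝ) * (Ideal.absNorm (r (cl v) : Ideal (𝓞 K)) : ℝ))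
          ≤ C0 ^ D * ((Ideal.absNorm v.asIdeal : ℝ) * R) :=
            mul_le_mul_of_nonneg_left (mul_le_mul_of_nonneg_left (hR1 _) hv0) h3
        _ = _ := by ring

end Pool.Agent.U168.KP
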