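import Pool.Agent.U168.KP.Dt

/-!
From a good pair `a`, `b` of integers of `K` to a point of the projective line which is close to few
of the points `α_l`.
-/

set_option autoImplicit false
set_option linter.unusedSectionVars false

namespace Pool.Agent.U168.KP

open NumberField IsDedekindDomain Height Finset Pool.Agent.W231.V

variable {K : Type*} [Field K] [NumberField K]

/-- `a`, `b` are units outside `T2` and `S`, integers outside `T2`, and congruent modulo `𝔮 ^ k` -/
structure Pair (T2 S : Finset (HeightOneSpectrum (𝓞 K))) (qq : HeightOneSpectrum (𝓞 K)) (k : ℕ)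
    (a b : K) : Prop where
  a0 : a ≠ 0
  b0 : b ≠ 0
  ab : a ≠ b
  unit : ∀ v ∉ T2, v ∉ S → fv v a = 1 ∧ fv v b = 1
  int : ∀ v ∉ T2, fv v a ≤ 1 ∧ fv v b ≤ 1
  q2 : qq ∉ T2
  qS : qq ∉ S
  cong : fv qq (a - b) ≤ ((Ideal.absNorm qq.asIdeal : ℝ) ^ k)⁻¹

/-- the prime `𝔮` has a large weight -/
lemma Pair.weight {T2 S : Finset (HeightOneSpectrum (𝓞 K))} {qq : HeightOneSpectrum (𝓞 K)} {k : ℕ}
    {a b : K} (h : Pair T2 S qq k a b) (T : Finset (HeightOneSpectrum (𝓞 K)))
    (hT2 : ∀ v ∈ T, v ∉ T2 ∧ v ∉ S) (hT : ∀ v ∈ T, fv v (a - b) < 1) :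
    ∑ v ∈ T, ell v + k * ell qq ≤ logHeight ![a, a - b] + ell qq := by
  classical
  have hab : a - b ≠ 0 := sub_ne_zero.2 h.ab
  set u : K := a / (a - b) with hu
  have hu0 : u ≠ 0 := div_ne_zero h.a0 hab
  have h1 := sum_posLog_le hu0 (insert qq T)
  rw [hu, logHeight₁_div_eq_logHeight] at h1
  have hval : ∀ v, v ∉ T2 → v ∉ S → fv v u = (fv v (a - b))⁻¹ := by
    intro v hv hS
    rw [hu, map_div₀, (h.unit v hv hS).1, one_div]
  have hbig : ∀ v ∈ T, ell v ≤ Real.posLog (fv v u) := by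
    intro v hv
    refine ell_le_posLog v hu0 ?_
    rw [hval v (hT2 v hv).1 (hT2 v hv).2]
    exact (one_lt_inv₀ ((fv v).pos hab)).2 (hT v hv)
  have hqq : (k : ℝ) * ell qq ≤ Real.posLog (fv qq u) := by
    have h2 : (Ideal.absNorm qq.asIdeal : ℝ) ^ k ≤ fv qq u := by
      rw [hval qq h.q2 h.qS]
      have h3 := h.cong
      have h4 : (0 : ℝ) < (Ideal.absNorm qq.asIdeal : ℝ) ^ k :=
        pow_pos (by linarith [one_lt_norm qq]) _
      rw [le_inv_comm₀ h4 ((fv qq).pos hab)]
      exact h3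
    have h4 : (0 : ℝ) < (Ideal.absNorm qq.asIdeal : ℝ) ^ k :=
      pow_pos (by linarith [one_lt_norm qq]) _
    have h5 := Real.log_le_log h4 h2
    rw [Real.log_pow] at h5
    exact h5.trans (le_max_right _ _)
  rw [← Finset.insert_erase (mem_insert_self qq T), Finset.sum_insert (notMem_erase _ _)] at h1
  have h2 : ∑ v ∈ T, ell v - ell qq ≤ ∑ v ∈ (insert qq T).erase qq, Real.posLog (fv v u) := by
    have h3 : ∑ v ∈ T.erase qq, ell v ≤ ∑ v ∈ (insert qq T).erase qq, Real.posLog (fv v u) := by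
      have e : (insert qq T).erase qq = T.erase qq := by
        ext v; simp
      rw [e]
      exact Finset.sum_le_sum fun v hv => hbig v (mem_of_mem_erase hv)
    have h4 : ∑ v ∈ T, ell v ≤ ∑ v ∈ T.erase qq, ell v + ell qq := by
      by_cases hq : qq ∈ T
      · rw [← Finset.sum_erase_add _ _ hq]
      · rw [Finset.erase_eq_of_notMem hq]
        linarith [ell_pos qq]
    linarith
  linarith

theorem transfer {q : ℕ} {i0 i1 i2 : Fin q} (h01 : i0 ≠ i1) (h02 : i0 ≠ i2) (h12 : i1 ≠ i2)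
    (α : Fin q → Fin 2 → K) (hα : ∀ l, α l ≠ 0) (hα' : ∀ l l', l ≠ l' → dt (α l) (α l') ≠ 0) :
    ∃ (C : ℝ) (T1 : Finset (HeightOneSpectrum (𝓞 K))),
      (∀ v ∉ T1, ∀ l, mxv v (α l) = 1) ∧ (∀ v ∉ T1, ∀ l l', l ≠ l' → fv v (dt (α l) (α l')) = 1) ∧
      ∀ (T2 S : Finset (HeightOneSpectrum (𝓞 K))) (qq : HeightOneSpectrum (𝓞 K)) (k : ℕ) (a b : K),
        T1 ⊆ T2 → Pair T2 S qq k a b → ∃ x : Fin 2 → K,
          dt x (α i0) * dt (α i1) (α i2) / (dt x (α i1) * dt (α i0) (α i2)) = a / b ∧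
          logHeight x ≤ logHeight ![a, b] + C ∧ logHeight ![a, b] ≤ logHeight x + C ∧
          (k : ℝ) * ell qq ≤ logHeight x + C + ell qq ∧
          (C < logHeight ![a, b] → (∀ l, dt x (α l) ≠ 0) ∧
            ∀ T : Finset (HeightOneSpectrum (𝓞 K)),
              (∀ v ∈ T, v ∉ T2 ∧ ∃ l, fv v (dt x (α l)) < mxv v x) →
              ∑ v ∈ T, ell v + k * ell qq ≤
                ((q : ℝ) - 2) * logHeight x + ∑ v ∈ S, ell v + ell qq + C) := by
  classical
  have hq : 3 ≤ q := by
    have h1 := Finset.card_le_univ ({i0, i1, i2} : Finset (Fin q))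
    rw [Fintype.card_fin, Finset.card_eq_three.2 ⟨i0, i1, i2, h01, h02, h12, rfl⟩] at h1
    exact h1
  set s : K := dt (α i0) (α i2) with hs
  set t : K := dt (α i1) (α i2) with ht
  set r : K := dt (α i1) (α i0) with hr
  have hs0 : s ≠ 0 := hα' _ _ h02
  have ht0 : t ≠ 0 := hα' _ _ h12
  have hr0 : r ≠ 0 := hα' _ _ h01.symm
  -- the bad primes
  set cs : Finset K := (univ : Finset (Fin q × Fin 2)).image (fun p => α p.1 p.2) ∪
    (univ : Finset (Fin q × Fin q)).image (fun p => dt (α p.1) (α p.2)) with hcs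
  obtain ⟨T1, hT1⟩ := exists_bad cs
  have g1 : ∀ v ∉ T1, ∀ l j, (α l j ≠ 0 → fv v (α l j) = 1) ∧ fv v (α l j) ≤ 1 := by
    intro v hv l j
    refine hT1 v hv _ ?_
    have : α l j ∈ (univ : Finset (Fin q × Fin 2)).image (fun p => α p.1 p.2) :=
      Finset.mem_image.2 ⟨(l, j), Finset.mem_univ _, rfl⟩
    simp only [hcs, Finset.mem_union]; tauto
  have g2 : ∀ v ∉ T1, ∀ l l', l ≠ l' → fv v (dt (α l) (α l')) = 1 := by
    intro v hv l l' hll
    refine (hT1 v hv _ ?_).1 (hα' l l' hll)
    have : dt (α l) (α l') ∈ (univ : Finset (Fin q × Fin q)).image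
        (fun p => dt (α p.1) (α p.2)) := Finset.mem_image.2 ⟨(l, l'), Finset.mem_univ _, rfl⟩
    simp only [hcs, Finset.mem_union]; tauto
  have g3 : ∀ v ∉ T1, ∀ l, mxv v (α l) = 1 := by
    intro v hv l
    apply le_antisymm (max_le (g1 v hv l 0).2 (g1 v hv l 1).2)
    obtain ⟨j, hj⟩ := Function.ne_iff.1 (hα l)
    rw [← (g1 v hv l j).1 hj]
    exact le_mxv v _ j
  -- constants
  obtain ⟨C1, hC1⟩ := logHeight_pair_le (K := K) (s * α i1 0) (-(t * α i0 0))
    (s * α i1 1) (-(t * α i0 1))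
  -- `a = dt x α0 / (s r)`, `b = dt x α1 / (t r)`
  obtain ⟨C2, hC2⟩ := logHeight_pair_le (K := K) (α i0 1 / (s * r)) (-(α i0 0) / (s * r))
    (α i1 1 / (t * r)) (-(α i1 0) / (t * r))
  obtain ⟨C3, hC3⟩ := logHeight_pair_le (K := K) 1 0 1 (-1)
  -- the additional points
  have hC4 : ∀ l, ∃ C : ℝ, ∀ x y : K,
      logHeight ![(α l 1) * x + (-(α l 0)) * y, (α i0 1) * x + (-(α i0 0)) * y] ≤
        logHeight ![x, y] + C := fun l => logHeight_pair_le _ _ _ _
  choose C4 hC4 using hC4
  set C5 : ℝ := |C1| + |C2| + |C3| + ∑ l, |C4 l| + ∑ l, |logHeight (α l)| with hC5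
  have hsum4 : 0 ≤ ∑ l, |C4 l| := Finset.sum_nonneg fun l _ => abs_nonneg _
  have hsum5 : 0 ≤ ∑ l, |logHeight (α l)| := Finset.sum_nonneg fun l _ => abs_nonneg _
  have hC50 : 0 ≤ C5 := by positivity
  refine ⟨q * C5 + C5 + 1, T1, g3, g2, fun T2 S qq k a b hT12 hP => ?_⟩
  have hqr : (3 : ℝ) ≤ q := by exact_mod_cast hq
  have hqC : 0 ≤ q * C5 := by positivity
  set x : Fin 2 → K := ![a * (s * α i1 0) + b * (-(t * α i0 0)),
    a * (s * α i1 1) + b * (-(t * α i0 1))] with hx
  have hx0 : x 0 = a * (s * α i1 0) + b * (-(t * α i0 0)) := rfl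
  have hx1 : x 1 = a * (s * α i1 1) + b * (-(t * α i0 1)) := rfl
  have d0 : dt x (α i0) = a * (s * r) := by
    unfold dt
    rw [hx0, hx1, hr]
    unfold dt
    ring
  have d1 : dt x (α i1) = b * (t * r) := by
    unfold dt
    rw [hx0, hx1, hr]
    unfold dt
    ring
  have d2 : dt x (α i2) = (a - b) * (s * t) := by
    have : dt x (α i2) = a * s * dt (α i1) (α i2) - b * t * dt (α i0) (α i2) := by
      unfold dt
      rw [hx0, hx1]
      ring
    rw [this, ← hs, ← ht]
    ring
  have hab : a - b ≠ 0 := sub_ne_zero.2 hP.ab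
  have hxne : x ≠ 0 := by
    intro h
    have h1 : dt x (α i0) = 0 := by
      unfold dt
      rw [h]
      simp
    rw [d0] at h1
    exact mul_ne_zero hP.a0 (mul_ne_zero hs0 hr0) h1
  have ex : x = ![x 0, x 1] := by
    funext j; fin_cases j <;> rfl
  have H1 : logHeight x ≤ logHeight ![a, b] + C1 := by
    have := hC1 a b
    have e : x = ![s * α i1 0 * a + -(t * α i0 0) * b, s * α i1 1 * a + -(t * α i0 1) * b] := by
      rw [hx]
      funext j
      fin_cases j
      · simp; ring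
      · simp; ring
    rw [e]
    exact this
  have H2 : logHeight ![a, b] ≤ logHeight x + C2 := by
    have := hC2 (x 0) (x 1)
    rw [← ex] at this
    have e : ![a, b] = ![α i0 1 / (s * r) * x 0 + -(α i0 0) / (s * r) * x 1,
        α i1 1 / (t * r) * x 0 + -(α i1 0) / (t * r) * x 1] := by
      have e0 : α i0 1 / (s * r) * x 0 + -(α i0 0) / (s * r) * x 1 = a := by
        have : α i0 1 / (s * r) * x 0 + -(α i0 0) / (s * r) * x 1 = dt x (α i0) / (s * r) := by
          unfold dt; ring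
        rw [this, d0]
        field_simp
      have e1 : α i1 1 / (t * r) * x 0 + -(α i1 0) / (t * r) * x 1 = b := by
        have : α i1 1 / (t * r) * x 0 + -(α i1 0) / (t * r) * x 1 = dt x (α i1) / (t * r) := by
          unfold dt; ring
        rw [this, d1]
        field_simp
      rw [e0, e1]
    rw [e]
    exact this
  have H3 : logHeight ![a, a - b] ≤ logHeight ![a, b] + C3 := by
    have := hC3 a b
    have e : ![a, a - b] = ![1 * a + 0 * b, 1 * a + -1 * b] := by
      funext j; fin_cases j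
      · simp
      · simp; ring
    rw [e]
    exact this
  have a1 := le_abs_self C1
  have a2 := le_abs_self C2
  have a3 := le_abs_self C3
  have b1 := abs_nonneg C1
  have b2 := abs_nonneg C2
  have b3 := abs_nonneg C3
  have hC5l : ∀ l, |logHeight (α l)| ≤ ∑ l, |logHeight (α l)| := fun l =>
    Finset.single_le_sum (f := fun l => |logHeight (α l)|) (fun _ _ => abs_nonneg _) (mem_univ l)
  have hC4l : ∀ l, |C4 l| ≤ ∑ l, |C4 l| := fun l =>
    Finset.single_le_sum (f := fun l => |C4 l|) (fun _ _ => abs_nonneg _) (mem_univ l)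
  refine ⟨x, ?_, by linarith, by linarith, ?_, fun hbig => ?_⟩
  · rw [d0, d1]
    have := hP.b0
    field_simp
  · have h1 := hP.weight ∅ (by simp) (by simp)
    rw [Finset.sum_empty, zero_add] at h1
    linarith
  · have hdt : ∀ l, dt x (α l) ≠ 0 := by
      intro l h0
      have h1 := logHeight_eq_of_dt hxne (hα l) h0
      have h2 := hC5l l
      have h3 := le_abs_self (logHeight (α l))
      linarith
    refine ⟨hdt, fun T hT => ?_⟩
    -- the part inside `S`
    set T' : Finset (HeightOneSpectrum (𝓞 K)) := T.filter (fun v => v ∉ S) with hT'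
    have hTle : ∑ v ∈ T, ell v ≤ ∑ v ∈ S, ell v + ∑ v ∈ T', ell v := by
      rw [← Finset.sum_filter_add_sum_filter_not T (fun v => v ∈ S)]
      refine add_le_add ?_ le_rfl
      refine Finset.sum_le_sum_of_subset_of_nonneg ?_ fun v _ _ => (ell_pos v).le
      intro v hv
      exact (Finset.mem_filter.1 hv).2
    have hvS : ∀ v ∈ T', v ∉ T2 ∧ v ∉ S ∧ ∃ l, fv v (dt x (α l)) < mxv v x := by
      intro v hv
      rw [hT', Finset.mem_filter] at hv
      exact ⟨(hT v hv.1).1, hv.2, (hT v hv.1).2⟩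
    have hvT1 : ∀ v ∈ T', v ∉ T1 := fun v hv h => (hvS v hv).1 (hT12 h)
    have hmx : ∀ v ∈ T', mxv v x ≤ 1 := by
      intro v hv
      have hv1 := hvT1 v hv
      obtain ⟨hv2, hv3, -⟩ := hvS v hv
      obtain ⟨ha, hb⟩ := hP.unit v hv2 hv3
      have hsv : fv v s = 1 := g2 v hv1 _ _ h02
      have htv : fv v t = 1 := g2 v hv1 _ _ h12
      have hj : ∀ j, fv v (a * (s * α i1 j) + b * (-(t * α i0 j))) ≤ 1 := by
        intro j
        refine (fv_na v _ _).trans (max_le ?_ ?_)
        · rw [map_mul, map_mul, ha, hsv, one_mul, one_mul]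
          exact (g1 v hv1 i1 j).2
        · rw [map_mul, map_neg_eq_map, map_mul, hb, htv, one_mul, one_mul]
          exact (g1 v hv1 i0 j).2
      exact max_le (hj 0) (hj 1)
    have hv0 : ∀ v ∈ T', fv v (dt x (α i0)) = 1 := by
      intro v hv
      have hv1 := hvT1 v hv
      obtain ⟨hv2, hv3, -⟩ := hvS v hv
      rw [d0, map_mul, map_mul, (hP.unit v hv2 hv3).1, g2 v hv1 _ _ h02, g2 v hv1 _ _ h01.symm]
      norm_num
    have hv1' : ∀ v ∈ T', fv v (dt x (α i1)) = 1 := by
      intro v hv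
      have hv1 := hvT1 v hv
      obtain ⟨hv2, hv3, -⟩ := hvS v hv
      rw [d1, map_mul, map_mul, (hP.unit v hv2 hv3).2, g2 v hv1 _ _ h12, g2 v hv1 _ _ h01.symm]
      norm_num
    -- the sets
    set W : Fin q → Finset (HeightOneSpectrum (𝓞 K)) := fun l =>
      T'.filter (fun v => fv v (dt x (α l)) < mxv v x) with hW
    have hsplit : ∑ v ∈ T', ell v ≤ ∑ l ∈ (univ.erase i0).erase i1, ∑ v ∈ W l, ell v := by
      have e : ∑ l ∈ (univ.erase i0).erase i1, ∑ v ∈ W l, ell v =
          ∑ v ∈ T', ∑ l ∈ (univ.erase i0).erase i1,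
            (if fv v (dt x (α l)) < mxv v x then ell v else 0) := by
        rw [Finset.sum_comm]
        refine Finset.sum_congr rfl fun l _ => ?_
        rw [hW]
        simp only
        rw [Finset.sum_filter]
      rw [e]
      refine Finset.sum_le_sum fun v hv => ?_
      obtain ⟨hv2, hv3, l, hl⟩ := hvS v hv
      have hl0 : l ≠ i0 := by
        rintro rfl
        rw [hv0 v hv] at hl
        linarith [hmx v hv]
      have hl1 : l ≠ i1 := by
        rintro rfl
        rw [hv1' v hv] at hl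
        linarith [hmx v hv]
      have hmem : l ∈ (univ.erase i0).erase i1 :=
        mem_erase.2 ⟨hl1, mem_erase.2 ⟨hl0, mem_univ _⟩⟩
      have h1 := Finset.single_le_sum
        (f := fun l => if fv v (dt x (α l)) < mxv v x then ell v else 0)
        (s := (univ.erase i0).erase i1) (fun m _ => by
          split_ifs
          · exact (ell_pos v).le
          · exact le_rfl) hmem
      simp only [if_pos hl] at h1
      exact h1
    have hl2 : ∑ v ∈ W i2, ell v + k * ell qq ≤ logHeight x + C5 + ell qq := by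
      have h1 := hP.weight (W i2) (fun v hv => by
        have := hvS v (Finset.mem_filter.1 hv).1
        exact ⟨this.1, this.2.1⟩) (fun v hv => by
        obtain ⟨hvT', hlt⟩ := Finset.mem_filter.1 hv
        have hv1 := hvT1 v hvT'
        rw [d2, map_mul, map_mul, g2 v hv1 _ _ h02, g2 v hv1 _ _ h12, mul_one, mul_one] at hlt
        exact lt_of_lt_of_le hlt (hmx v hvT'))
      linarith
    have hlo : ∀ l ∈ ((univ.erase i0).erase i1).erase i2, ∑ v ∈ W l, ell v ≤ logHeight x + C5 := by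
      intro l hl
      have hl0 : l ≠ i0 := (mem_erase.1 (mem_erase.1 (mem_erase.1 hl).2).2).1
      have hu0 : dt x (α l) / dt x (α i0) ≠ 0 := by
        refine div_ne_zero (hdt l) ?_
        rw [d0]
        exact mul_ne_zero hP.a0 (mul_ne_zero hs0 hr0)
      have h1 := weight_le hu0 (W l) fun v hv => by
        obtain ⟨hvT', hlt⟩ := Finset.mem_filter.1 hv
        rw [map_div₀, hv0 v hvT', div_one]
        exact lt_of_lt_of_le hlt (hmx v hvT')
      rw [logHeight₁_div_eq_logHeight] at h1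
      have h2 := hC4 l (x 0) (x 1)
      rw [← ex] at h2
      have e : ![dt x (α l), dt x (α i0)] =
          ![(α l 1) * x 0 + (-(α l 0)) * x 1, (α i0 1) * x 0 + (-(α i0 0)) * x 1] := by
        unfold dt
        funext j; fin_cases j
        · simp; ring
        · simp; ring
      rw [e] at h1
      have h3 := hC4l l
      have h4 := le_abs_self (C4 l)
      linarith
    have hmem2 : i2 ∈ (univ.erase i0).erase i1 :=
      mem_erase.2 ⟨h12.symm, mem_erase.2 ⟨h02.symm, mem_univ _⟩⟩
    have hcard : ((((univ : Finset (Fin q)).erase i0).erase i1).erase i2).card = q - 3 := by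
      rw [card_erase_of_mem hmem2, card_erase_of_mem (mem_erase.2 ⟨h01.symm, mem_univ _⟩),
        card_erase_of_mem (mem_univ _), card_univ, Fintype.card_fin]
      omega
    have hrest : ∑ l ∈ ((univ.erase i0).erase i1).erase i2, ∑ v ∈ W l, ell v ≤
        ((q : ℝ) - 3) * (logHeight x + C5) := by
      refine (Finset.sum_le_sum hlo).trans ?_
      rw [Finset.sum_const, hcard, nsmul_eq_mul, Nat.cast_sub hq]
      push_cast
      exact le_rfl
    rw [← Finset.sum_erase_add _ _ hmem2] at hsplit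
    nlinarith

end Pool.Agent.U168.KP
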