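import Pool.Agent.U168.KP.Gen
import Pool.Agent.U168.KP.Cyc
import Pool.Agent.U168.KP.Tr

/-!
Monomials in the balanced generators.
-/

set_option autoImplicit false

namespace Pool.Agent.U168.KP

open NumberField IsDedekindDomain Height Finset Pool.Agent.W231.V

variable {K : Type*} [Field K] [NumberField K]

section

variable {T2 : Finset (HeightOneSpectrum (𝓞 K))} {C : ℝ} {π : HeightOneSpectrum (𝓞 K) → 𝓞 K}
  (hC : 1 ≤ C) (hπ0 : ∀ v, π v ≠ 0)
  (hπ1 : ∀ v ∉ T2, fv v (π v : K) = (Ideal.absNorm v.asIdeal : ℝ)⁻¹)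
  (hπ2 : ∀ v ∉ T2, ∀ u ∉ T2, u ≠ v → fv u (π v : K) = 1)
  (hπ3 : ∀ v, ∀ w : InfinitePlace K, w (π v : K) ≤
        (C * (Ideal.absNorm v.asIdeal : ℝ)) ^ ((Module.finrank ℚ K : ℝ)⁻¹))
  {n : ℕ} {v : Fin n → HeightOneSpectrum (𝓞 K)} (hv : ∀ i, v i ∉ T2)
  (hinj : Function.Injective v)

/-- the monomial with exponents `t` -/
noncomputable def mon (π : HeightOneSpectrum (𝓞 K) → 𝓞 K) (v : Fin n → HeightOneSpectrum (𝓞 K))
    (t : Fin n → ℕ) : 𝓞 K := ∏ i, π (v i) ^ t i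

lemma coe_mon (t : Fin n → ℕ) : (mon π v t : K) = ∏ i, (π (v i) : K) ^ t i := by
  unfold mon
  push_cast
  rfl

include hπ0 in
lemma mon_ne (t : Fin n → ℕ) : mon π v t ≠ 0 :=
  Finset.prod_ne_zero_iff.2 fun i _ => pow_ne_zero _ (hπ0 _)

lemma fv_mon (u : HeightOneSpectrum (𝓞 K)) (t : Fin n → ℕ) :
    fv u (mon π v t : K) = ∏ i, fv u (π (v i) : K) ^ t i := by
  rw [coe_mon, map_prod]
  exact Finset.prod_congr rfl fun i _ => map_pow _ _ _

include hπ2 hv in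
lemma fv_mon_one {u : HeightOneSpectrum (𝓞 K)} (hu : u ∉ T2) (huv : ∀ i, v i ≠ u) (t : Fin n → ℕ) :
    fv u (mon π v t : K) = 1 := by
  rw [fv_mon]
  refine Finset.prod_eq_one fun i _ => ?_
  rw [hπ2 (v i) (hv i) u hu (huv i).symm, one_pow]

include hπ1 hπ2 hv hinj in
lemma fv_mon_self (i : Fin n) (t : Fin n → ℕ) :
    fv (v i) (mon π v t : K) = ((Ideal.absNorm (v i).asIdeal : ℝ) ^ t i)⁻¹ := by
  classical
  rw [fv_mon, Finset.prod_eq_single i]
  · rw [hπ1 (v i) (hv i), inv_pow]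
  · intro j _ hji
    rw [hπ2 (v j) (hv j) (v i) (hv i) (fun h => hji (hinj h).symm), one_pow]
  · intro h
    exact absurd (mem_univ i) h

include hC hπ3 in
lemma inf_mon {y : ℝ} (hy : ∀ i, (Ideal.absNorm (v i).asIdeal : ℝ) ≤ y) (hy1 : 1 ≤ y)
    (w : InfinitePlace K) (t : Fin n → ℕ) {τ : ℕ} (ht : ∑ i, t i ≤ τ) :
    w (mon π v t : K) ≤ ((C * y) ^ ((Module.finrank ℚ K : ℝ)⁻¹)) ^ τ := by
  have hCy : 1 ≤ C * y := one_le_mul_of_one_le_of_one_le hC hy1
  have hD0 : 0 ≤ ((Module.finrank ℚ K : ℝ)⁻¹) := inv_nonneg.2 (Nat.cast_nonneg _)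
  have h1 : w (mon π v t : K) = ∏ i, w (π (v i) : K) ^ t i := by
    rw [coe_mon, map_prod]
    exact Finset.prod_congr rfl fun i _ => map_pow _ _ _
  rw [h1]
  have h2 : ∏ i, w (π (v i) : K) ^ t i ≤ ∏ i, ((C * y) ^ ((Module.finrank ℚ K : ℝ)⁻¹)) ^ t i := by
    refine Finset.prod_le_prod (fun i _ => pow_nonneg (apply_nonneg w _) _) fun i _ => ?_
    refine pow_le_pow_left₀ (apply_nonneg w _) ((hπ3 (v i) w).trans ?_) _
    refine Real.rpow_le_rpow (by positivity) ?_ hD0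
    exact mul_le_mul_of_nonneg_left (hy i) (by linarith)
  refine h2.trans ?_
  rw [Finset.prod_pow_eq_pow_sum]
  exact pow_le_pow_right₀ (Real.one_le_rpow hCy hD0) ht

include hC hπ0 hπ3 in
lemma height_mon {y : ℝ} (hy : ∀ i, (Ideal.absNorm (v i).asIdeal : ℝ) ≤ y) (hy1 : 1 ≤ y)
    (t s : Fin n → ℕ) {τ : ℕ} (ht : ∑ i, t i ≤ τ) (hs : ∑ i, s i ≤ τ) :
    logHeight ![(mon π v t : K), (mon π v s : K)] ≤ τ * Real.log (C * y) := by
  have hCy : 1 ≤ C * y := one_le_mul_of_one_le_of_one_le hC hy1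
  have hCy0 : 0 < C * y := by linarith
  have hDN : (0 : ℝ) < (Module.finrank ℚ K : ℝ) := by
    exact_mod_cast (Module.finrank_pos : 0 < Module.finrank ℚ K)
  have h1 := logHeight_le_of (K := K) (x := ![(mon π v t : K), (mon π v s : K)])
    (M := ((C * y) ^ ((Module.finrank ℚ K : ℝ)⁻¹)) ^ τ) (by
      intro h
      have := congrFun h 0
      simp only [Matrix.cons_val_zero, Pi.zero_apply] at this
      exact mon_ne hπ0 t (by exact_mod_cast this)) (by positivity) (by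
      intro w i
      fin_cases i
      · exact inf_mon hC hπ3 hy hy1 w t ht
      · exact inf_mon hC hπ3 hy hy1 w s hs) (by
      intro u i
      fin_cases i
      · exact fv_int_le u _
      · exact fv_int_le u _)
  refine h1.trans (le_of_eq ?_)
  have hDw : ((Height.totalWeight K : ℕ) : ℝ) = (Module.finrank ℚ K : ℝ) := by
    rw [← sum_mult]
    exact_mod_cast (InfinitePlace.sum_mult_eq (K := K))
  rw [Real.log_pow, Real.log_rpow hCy0, hDw]
  field_simp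

end

end Pool.Agent.U168.KP
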