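import Pool.Agent.U168.KP.Gen
import Pool.Agent.U168.KP.Fac
import Pool.Agent.H484R2.Pit
import Pool.Agent.Helper923.PNT

/-!
Primes of degree one, one above each rational prime.
-/

set_option autoImplicit false

namespace Pool.Agent.U168.KP

open NumberField IsDedekindDomain Finset Filter Topology Pool.Agent.W231.V

section ram

variable (K : Type*) [Field K] [NumberField K]

lemma ram_finite : {v : HeightOneSpectrum (𝓞 K) | ∃ q : ℕ, q.Prime ∧ (q : 𝓞 K) ∈ v.asIdeal ^ 2}.Finite := by
  have hne : differentIdeal ℤ (𝓞 K) ≠ ⊥ := differentIdeal_ne_bot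
  refine (Ideal.finite_factors hne).subset ?_
  rintro v ⟨q, hq, hv⟩
  have hqz : (q : ℤ) ≠ 0 := by exact_mod_cast hq.ne_zero
  have hm : (Ideal.span {(q : ℤ)}).IsMaximal := by
    have h1 : (Ideal.span {(q : ℤ)}).IsPrime := by
      rw [Ideal.span_singleton_prime hqz]
      exact Nat.prime_iff_prime_int.1 hq
    exact h1.isMaximal (by simpa using hqz)
  have h2 := pow_sub_one_dvd_differentIdeal ℤ (p := Ideal.span {(q : ℤ)}) v.asIdeal 2
    (by simpa using hqz) (by
      rw [Ideal.map_span, Set.image_singleton, Ideal.dvd_span_singleton]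
      simpa using hv)
  simpa using h2

end ram

variable (K : Type) [Field K] [NumberField K]

/-- `q` is the norm of a prime of `K` outside `T` -/
def Good (T : Finset (HeightOneSpectrum (𝓞 K))) (q : ℕ) : Prop :=
  q.Prime ∧ ∃ v : HeightOneSpectrum (𝓞 K), v ∉ T ∧ Ideal.absNorm v.asIdeal = q

variable {K}

lemma of_hom {p : ℕ} (hp : p.Prime) (f : 𝓞 K →+* ZMod p) :
    ∃ v : HeightOneSpectrum (𝓞 K), Ideal.absNorm v.asIdeal = p := by
  haveI := Fact.mk hp
  have hprime : (RingHom.ker f).IsPrime := RingHom.ker_isPrime f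
  have hsurj : Function.Surjective f := ZMod.ringHom_surjective f
  have hcard : Ideal.absNorm (RingHom.ker f) = p := by
    rw [Ideal.absNorm_apply, Submodule.cardQuot_apply]
    have e := RingHom.quotientKerEquivOfSurjective hsurj
    rw [Nat.card_congr e.toEquiv, Nat.card_zmod]
  have hbot : RingHom.ker f ≠ ⊥ := by
    intro h
    rw [h, Ideal.absNorm_bot] at hcard
    exact hp.ne_zero hcard.symm
  exact ⟨⟨RingHom.ker f, hprime, hbot⟩, hcard⟩

open Classical in
lemma count_lower (T : Finset (HeightOneSpectrum (𝓞 K))) (N : ℕ) :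
    (∑ p ∈ (Finset.range (N + 1)).filter Nat.Prime, (Nat.card (𝓞 K →+* ZMod p) : ℝ)) ≤
      (Module.finrank ℚ K : ℝ) * ((Nat.count (Good K T) (N + 1) : ℝ) + T.card) := by
  have h1 : ∑ p ∈ (Finset.range (N + 1)).filter Nat.Prime, (Nat.card (𝓞 K →+* ZMod p) : ℝ) ≤
      ∑ p ∈ ((Finset.range (N + 1)).filter Nat.Prime).filter
        (fun p => Nat.card (𝓞 K →+* ZMod p) ≠ 0), (Module.finrank ℚ K : ℝ) := by
    rw [← Finset.sum_filter_add_sum_filter_not ((Finset.range (N + 1)).filter Nat.Prime)
      (fun p => Nat.card (𝓞 K →+* ZMod p) ≠ 0)]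
    have h2 : ∑ p ∈ ((Finset.range (N + 1)).filter Nat.Prime).filter
        (fun p => ¬ Nat.card (𝓞 K →+* ZMod p) ≠ 0), (Nat.card (𝓞 K →+* ZMod p) : ℝ) = 0 := by
      refine Finset.sum_eq_zero fun p hp => ?_
      have := (Finset.mem_filter.1 hp).2
      rw [not_not] at this
      exact_mod_cast this
    rw [h2, add_zero]
    refine Finset.sum_le_sum fun p hp => ?_
    exact H332.PIT.hc_cast_le (Finset.mem_filter.1 (Finset.mem_filter.1 hp).1).2
  refine h1.trans ?_
  rw [Finset.sum_const, nsmul_eq_mul, mul_comm]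
  refine mul_le_mul_of_nonneg_left ?_ (Nat.cast_nonneg _)
  have h3 : ((Finset.range (N + 1)).filter Nat.Prime).filter
        (fun p => Nat.card (𝓞 K →+* ZMod p) ≠ 0) ⊆
      (Finset.range (N + 1)).filter (Good K T) ∪ T.image (fun v => Ideal.absNorm v.asIdeal) := by
    intro p hp
    rw [Finset.mem_filter, Finset.mem_filter] at hp
    obtain ⟨⟨hp1, hp2⟩, hp3⟩ := hp
    have h4 : Nonempty (𝓞 K →+* ZMod p) := (Nat.card_ne_zero.1 hp3).1
    obtain ⟨f⟩ := h4
    obtain ⟨v, hv⟩ := of_hom hp2 f
    rw [Finset.mem_union, Finset.mem_filter, Finset.mem_image]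
    by_cases hvT : v ∈ T
    · exact Or.inr ⟨v, hvT, hv⟩
    · exact Or.inl ⟨hp1, hp2, v, hvT, hv⟩
  have h5 := (Finset.card_le_card h3).trans (Finset.card_union_le _ _)
  have h6 : (T.image (fun v => Ideal.absNorm v.asIdeal)).card ≤ T.card := Finset.card_image_le
  rw [Nat.count_eq_card_filter_range]
  have h7 := h5.trans (Nat.add_le_add_left h6 _)
  exact_mod_cast h7

open Classical in
lemma count_asym (T : Finset (HeightOneSpectrum (𝓞 K))) {δ : ℝ} (hδ : 0 < δ) :
    ∀ᶠ N : ℕ in atTop, (1 - δ) * N ≤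
      (Module.finrank ℚ K : ℝ) * Real.log N * (Nat.count (Good K T) (N + 1) : ℝ) := by
  set D : ℝ := (Module.finrank ℚ K : ℝ) with hD
  set A : ℕ → ℝ := fun N => ∑ p ∈ (Finset.range (N + 1)).filter Nat.Prime,
    (Nat.card (𝓞 K →+* ZMod p) : ℝ) with hA
  have h1 : Tendsto (fun N : ℕ => A N / (Nat.primeCounting N : ℝ)) atTop (𝓝 1) :=
    Pool.Agent.H484R2.pit K
  have h2 : Tendsto (fun N : ℕ => (Nat.primeCounting N : ℝ) * Real.log N / N) atTop (𝓝 1) := by
    have := Pool.Agent.Helper923.PNT.pi_tendsto.comp (tendsto_natCast_atTop_atTop (R := ℝ))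
    refine this.congr fun N => ?_
    simp only [Function.comp, Nat.floor_natCast]
  have h3 : Tendsto (fun N : ℕ => Real.log N / N) atTop (𝓝 0) := by
    have h := (Real.isLittleO_log_id_atTop).tendsto_div_nhds_zero
    have := h.comp (tendsto_natCast_atTop_atTop (R := ℝ))
    exact this.congr fun X => by simp
  have h4 : Tendsto (fun N : ℕ => A N / (Nat.primeCounting N : ℝ) *
      ((Nat.primeCounting N : ℝ) * Real.log N / N) - D * T.card * (Real.log N / N)) atTop
      (𝓝 (1 * 1 - D * T.card * 0)) := (h1.mul h2).sub (h3.const_mul _)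
  rw [mul_one, mul_zero, sub_zero] at h4
  have h5 := h4.eventually (lt_mem_nhds (show 1 - δ < 1 by linarith))
  filter_upwards [h5, eventually_ge_atTop 2] with N hN hN2
  have hN0 : (0 : ℝ) < N := by
    have : 0 < N := by omega
    exact_mod_cast this
  have hpi : (0 : ℝ) < Nat.primeCounting N := by
    have : 0 < Nat.primeCounting N := by
      have h := Nat.monotone_primeCounting hN2
      have h2 : Nat.primeCounting 2 = 1 := by decide
      omega
    exact_mod_cast this
  have hlog : 0 ≤ Real.log N := Real.log_natCast_nonneg N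
  have e1 : A N / (Nat.primeCounting N : ℝ) * ((Nat.primeCounting N : ℝ) * Real.log N / N) =
      A N * Real.log N / N := by
    field_simp
  rw [e1] at hN
  have h6 := count_lower T N
  have h7 : (1 - δ) * N < A N * Real.log N - D * T.card * Real.log N := by
    have h8 : (A N * Real.log N / N - D * T.card * (Real.log N / N)) * N =
        A N * Real.log N - D * T.card * Real.log N := by
      field_simp
    rw [← h8]
    exact mul_lt_mul_of_pos_right hN hN0
  have h9 : A N * Real.log N ≤ D * ((Nat.count (Good K T) (N + 1) : ℝ) + T.card) * Real.log N :=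
    mul_le_mul_of_nonneg_right h6 hlog
  nlinarith

lemma floor_asym {g : ℕ → ℝ} (hg : Tendsto g atTop atTop) {δ : ℝ} (hδ : 0 < δ) :
    ∀ᶠ j : ℕ in atTop, (1 - δ) * g j ≤ (⌊g j⌋₊ : ℝ) := by
  filter_upwards [hg.eventually_ge_atTop (max 1 (1 / δ))] with j hj
  have h1 := Nat.lt_floor_add_one (g j)
  have h2 : 1 / δ ≤ g j := (le_max_right _ _).trans hj
  rw [div_le_iff₀ hδ] at h2
  nlinarith

lemma loglog_le {ε : ℝ} (hε : 0 < ε) (c : ℝ) :
    ∀ᶠ j : ℕ in atTop, c + Real.log (Real.log j) ≤ ε * Real.log j := by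
  have h1 : Tendsto (fun j : ℕ => Real.log j) atTop atTop :=
    Real.tendsto_log_atTop.comp tendsto_natCast_atTop_atTop
  have h2 : Tendsto (fun x : ℝ => (c + Real.log x) / x) atTop (𝓝 0) := by
    have h := (Real.isLittleO_log_id_atTop).tendsto_div_nhds_zero
    have h' : Tendsto (fun x : ℝ => c / x) atTop (𝓝 0) := tendsto_const_nhds.div_atTop tendsto_id
    have := h'.add h
    rw [add_zero] at this
    exact this.congr fun x => by simp [add_div]
  have h3 := (h2.comp h1).eventually (gt_mem_nhds hε)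
  filter_upwards [h3, h1.eventually_gt_atTop 0] with j hj hj0
  simp only [Function.comp] at hj
  rw [div_lt_iff₀ hj0] at hj
  exact hj.le

open Classical in
/-- the `j`-th good prime -/
lemma nth_asym (T : Finset (HeightOneSpectrum (𝓞 K))) {δ : ℝ} (hδ : 0 < δ) :
    ∀ᶠ j : ℕ in atTop, (Nat.nth (Good K T) j : ℝ) ≤
      (1 + δ) * (Module.finrank ℚ K : ℝ) * (j * Real.log j) := by
  set D : ℝ := (Module.finrank ℚ K : ℝ) with hD
  have hD1 : 1 ≤ D := by
    rw [hD]; exact_mod_cast (Module.finrank_pos : 0 < Module.finrank ℚ K)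
  obtain ⟨η, hη0, hη1, hη⟩ : ∃ η : ℝ, 0 < η ∧ η < 1 ∧ 1 + η < (1 - η) * (1 - η) * (1 + δ) := by
    have hc : Continuous fun η : ℝ => (1 - η) * (1 - η) * (1 + δ) - (1 + η) := by fun_prop
    have h0 : 0 < (1 - (0 : ℝ)) * (1 - 0) * (1 + δ) - (1 + 0) := by linarith
    have h1 := (hc.tendsto 0).eventually (lt_mem_nhds h0)
    obtain ⟨r, hr, hr2⟩ := Metric.eventually_nhds_iff.1 h1
    refine ⟨min (r / 2) (1 / 2), by positivity, by
      have := min_le_right (r / 2) (1 / 2 : ℝ)
      linarith, ?_⟩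
    have h2 : dist (min (r / 2) (1 / 2)) (0 : ℝ) < r := by
      rw [Real.dist_0_eq_abs, abs_of_pos (by positivity)]
      have := min_le_left (r / 2) (1 / 2 : ℝ)
      linarith
    have := hr2 h2
    linarith
  set g : ℕ → ℝ := fun j => (1 + δ) * D * (j * Real.log j) with hg
  have hlog : Tendsto (fun j : ℕ => Real.log j) atTop atTop :=
    Real.tendsto_log_atTop.comp tendsto_natCast_atTop_atTop
  have hgt : Tendsto g atTop atTop := by
    have h1 : Tendsto (fun j : ℕ => (j : ℝ) * Real.log j) atTop atTop :=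
      (tendsto_natCast_atTop_atTop (R := ℝ)).atTop_mul_atTop₀ hlog
    exact h1.const_mul_atTop (by positivity)
  have hY : Tendsto (fun j => ⌊g j⌋₊) atTop atTop := tendsto_nat_floor_atTop.comp hgt
  have h1 := hY.eventually (count_asym (K := K) T hη0)
  have h2 := floor_asym hgt hη0
  have h3 := loglog_le hη0 (Real.log ((1 + δ) * D))
  filter_upwards [h1, h2, h3, hlog.eventually_gt_atTop 1, eventually_ge_atTop 2,
    hgt.eventually_ge_atTop 1] with j k1 k2 k3 k4 k5 k6
  set Y := ⌊g j⌋₊ with hYd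
  have hYle : (Y : ℝ) ≤ g j := Nat.floor_le (by linarith)
  have hY1 : 1 ≤ Y := Nat.le_floor (by simpa using k6)
  have hY0 : (0 : ℝ) < Y := by exact_mod_cast hY1
  have hj0 : (0 : ℝ) < j := by
    have : 0 < j := by omega
    exact_mod_cast this
  have hlogY : Real.log Y ≤ (1 + η) * Real.log j := by
    have h4 := Real.log_le_log hY0 hYle
    have h5 : Real.log (g j) = Real.log ((1 + δ) * D) + (Real.log j + Real.log (Real.log j)) := by
      rw [hg]
      simp only
      rw [Real.log_mul (by positivity) (by positivity), Real.log_mul hj0.ne' (by linarith)]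
    linarith
  have hcount : j < Nat.count (Good K T) (Y + 1) := by
    have h4 : (j : ℝ) < (Nat.count (Good K T) (Y + 1) : ℝ) := by
      by_contra hcon
      rw [not_lt] at hcon
      have h5 : D * Real.log Y * (Nat.count (Good K T) (Y + 1) : ℝ) ≤
          D * ((1 + η) * Real.log j) * j := by
        refine mul_le_mul (mul_le_mul_of_nonneg_left hlogY (by linarith)) hcon
          (Nat.cast_nonneg _) (by positivity)
      have h6 : (1 - η) * ((1 - η) * g j) ≤ D * ((1 + η) * Real.log j) * j :=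
        (mul_le_mul_of_nonneg_left k2 (by linarith)).trans (k1.trans h5)
      have h7 : (1 - η) * ((1 - η) * g j) = ((1 - η) * (1 - η) * (1 + δ)) * (D * (j * Real.log j)) := by
        rw [hg]; ring
      have h8 : 0 < D * (j * Real.log j) := by positivity
      have h9 := mul_lt_mul_of_pos_right hη h8
      rw [h7] at h6
      have h10 : D * ((1 + η) * Real.log j) * j = (1 + η) * (D * (j * Real.log j)) := by ring
      linarith
    exact_mod_cast h4
  have h5 := Nat.nth_lt_of_lt_count hcount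
  have h6 : Nat.nth (Good K T) j ≤ Y := Nat.lt_succ_iff.1 h5
  calc (Nat.nth (Good K T) j : ℝ) ≤ Y := by exact_mod_cast h6
    _ ≤ g j := hYle

end Pool.Agent.U168.KP
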